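import Mathlib.Data.Finsupp.Defs
import Mathlib.Data.Finset.Powerset
import Mathlib.Data.Finset.Prod
import Mathlib.Data.Set.Finite.Basic
import Mathlib.Order.Interval.Set.Defs
import Mathlib.Tactic.Linarith
import Mathlib.Tactic.Ring
import Mathlib.Tactic.Positivity

/-! Universal creatures: definitions and statements (part A). -/

namespace Pool.Agent.MP_5baa61_gt.JA

open Set
open scoped Classical

/-- The half open interval from the first to the second coordinate. -/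
abbrev Cell : Type := ℕ × ℕ
/-- A finite set of pairs (element, role). -/
abbrev Move : Type := Finset (ℕ × ℕ)
/-- Available moves and offers. -/
abbrev Pos : Type := Set Move × Set (Set Move)
/-- A finite set of cells with a family of subsets. -/
abbrev Sk : Type := Finset Cell × Finset (Finset Cell)
/-- A finite set of cells and a finite set of numbers. -/
abbrev Pat : Type := Finset Cell × Finset ℕ
/-- A skeleton and a finite set of numbers. -/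
abbrev Sta : Type := Sk × Finset ℕ

def inC (J : Cell) (e : ℕ) : Prop := J.1 ≤ e ∧ e < J.2

noncomputable def rs (t : Move) (J : Cell) : Move := t.filter fun p => inC J p.1

def Mv (J : Cell) (a : ℕ) : Set Move := {t | ∀ p ∈ t, inC J p.1 ∧ p.2 < a}

def rr (a : ℕ) : ℕ := 2 ^ (a * a)
def dD (a : ℕ) : ℕ := a * rr a
def RR (a : ℕ) : ℕ := a * dD a + 1

def Wf (J : Cell) (a : ℕ) (P : Pos) : Prop :=
  ∅ ∈ P.1 ∧ P.1 ⊆ Mv J a ∧ ∀ o ∈ P.2, ∅ ∈ o ∧ o ⊆ Mv J a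

def Free (Y : Set Move) (P : Pos) : Prop := ∀ t ∈ P.1, t ∉ Y
def Tl (Y : Set Move) (P : Pos) : Prop := ∀ o ∈ P.2, ∃ t ∈ o, t ∈ Y

def Deep : ℕ → Set Pos → Prop
  | 0, D => D.Nonempty
  | d + 1, D => ∀ Y : Set Move, Deep d {P | P ∈ D ∧ Free Y P} ∨ Deep d {P | P ∈ D ∧ Tl Y P}

def Comp (W : Finset Cell) (F : Cell → Set Move) : Set Move :=
  {t | (∀ p ∈ t, ∃ J ∈ W, inC J p.1) ∧ ∀ J ∈ W, rs t J ∈ F J}

def CompP (s : Sk) (P : Cell → Pos) : Pos :=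
  (Comp s.1 fun J => (P J).1,
    {o | ∃ c ∈ s.2, ∃ f : Cell → Set Move, (∀ J ∈ c, f J ∈ (P J).2) ∧ o = Comp c f})

def Le (s' s : Sk) : Prop := s'.1 ⊆ s.1 ∧ s'.2 ⊆ s.2 ∧ ∀ c ∈ s'.2, c ⊆ s'.1

def Disj (W : Finset Cell) : Prop :=
  (∀ J ∈ W, J.1 < J.2) ∧ ∀ J ∈ W, ∀ J' ∈ W, J ≠ J' → J.2 ≤ J'.1 ∨ J'.2 ≤ J.1

def SkWf (s : Sk) : Prop := Disj s.1 ∧ ∀ c ∈ s.2, c ⊆ s.1 ∧ c.Nonempty

def ClS (U : Sk → Prop) (s : Sk) : Prop :=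
  ∀ W1 : Finset Cell, ∃ s', Le s' s ∧ U s' ∧ (s'.1 ⊆ W1 ∨ ∀ J ∈ s'.1, J ∉ W1)

def Fam (U : Sk → Prop) (s : Sk) (DD : Cell → Set Pos) : Set Pos :=
  {Q | ∃ s', Le s' s ∧ U s' ∧ ∃ P : Cell → Pos, (∀ J ∈ s'.1, P J ∈ DD J) ∧ Q = CompP s' P}

def ClD (a : ℕ) (U : Sk → Prop) (s : Sk) : Prop :=
  ∀ DD : Cell → Set Pos, (∀ J ∈ s.1, (∀ P ∈ DD J, Wf J a P) ∧ Deep (dD J.1) (DD J)) →
    Deep (dD a) (Fam U s DD)

/-- The universal norm is at least `l`. -/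
def Un (a : ℕ) : ℕ → Sk → Prop
  | 0, s => s.2.Nonempty
  | l + 1, s => ClS (Un a l) s ∧ ClD a (Un a l) s

/-- Composition of skeletons. -/
noncomputable def cmp (s : Sk) (g : Cell → Sk) : Sk :=
  (s.1.biUnion fun J => (g J).1, (s.1.biUnion fun J => (g J).1).powerset.filter fun u =>
    ∃ c ∈ s.2, ∃ h : Cell → Finset Cell, (∀ J ∈ c, h J ∈ (g J).2) ∧ u = c.biUnion h)

/-- Thickening: the new offers contain a whole subskeleton of norm `l`. -/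
noncomputable def thk (a l : ℕ) (s : Sk) : Sk :=
  (s.1, s.1.powerset.filter fun u => ∃ s1, Le s1 s ∧ s1.1 ⊆ u ∧ Un a l s1)

/-- The cells of `W` lie inside the cell `J`. -/
def Ins (W : Finset Cell) (J : Cell) : Prop := ∀ C ∈ W, J.1 ≤ C.1 ∧ C.2 ≤ J.2

def U5Stmt : Prop := ∀ (a l : ℕ) (s : Sk) (g : Cell → Sk), SkWf s → Un a l s →
  (∀ J ∈ s.1, a ≤ J.1 ∧ SkWf (g J) ∧ Ins (g J).1 J ∧ Un J.1 l (g J)) →
    SkWf (cmp s g) ∧ Un a l (cmp s g)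

def U6Stmt : Prop := ∀ (a m l : ℕ) (s : Sk), SkWf s → Un a (m + l) s →
  SkWf (thk a l s) ∧ Un a m (thk a l s)

/-- Replacing every cell by a smaller cell. -/
def U7Stmt : Prop := ∀ (a l : ℕ) (s : Sk) (φ : Cell → Cell), SkWf s → Un a l s →
  (∀ J ∈ s.1, a ≤ J.1 ∧ J.1 ≤ (φ J).1 ∧ (φ J).1 < (φ J).2 ∧ (φ J).2 ≤ J.2) →
    SkWf (s.1.image φ, s.2.image fun c => c.image φ) ∧
      Un a l (s.1.image φ, s.2.image fun c => c.image φ)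

def MU (DD : Cell → Set Pos) (J : Cell) : Set Move := {t | ∃ P ∈ DD J, t ∈ P.1}
def OU (DD : Cell → Set Pos) (J : Cell) : Set (Set Move) := {o | ∃ P ∈ DD J, o ∈ P.2}

def TupleStmt : Prop := ∀ (a β : ℕ) (n : Cell → ℕ) (W : Finset Cell) (DD : Cell → Set Pos)
  (Y : Set Move), Disj W →
  (∀ J ∈ W, a ≤ J.1 ∧ β ≤ J.1 ∧ (∀ P ∈ DD J, Wf J a P) ∧ Deep ((n J + 1) * rr J.1) (DD J)) →
    ∃ DD' : Cell → Set Pos, (∀ J, DD' J ⊆ DD J) ∧ (∀ J, J ∉ W → DD' J = DD J) ∧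
      (∀ J ∈ W, Deep (n J * rr J.1) (DD' J)) ∧
      ∀ s ∈ Mv (0, β) a, (∀ t ∈ Comp W (MU DD'), s ∪ t ∉ Y) ∨
        ∀ f : Cell → Set Move, (∀ J ∈ W, f J ∈ OU DD' J) → ∃ t ∈ Comp W f, s ∪ t ∈ Y

/-- Cells indexed by pairs `l < k`, increasing column by column. -/
def Grid (J : ℕ → ℕ → Cell) : Prop :=
  (∀ l k, l < k → (J l k).1 < (J l k).2 ∧ k ≤ (J l k).1) ∧
    ∀ l k l' k', l < k → l' < k' → (k < k' ∨ (k = k' ∧ l < l')) → (J l k).2 ≤ (J l' k').1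

noncomputable def pairs (J : ℕ → ℕ → Cell) (F G : Finset ℕ) : Finset Cell :=
  (((F ∪ G) ×ˢ G).filter fun p => p.1 < p.2).image fun p => J p.1 p.2

noncomputable def sq (J : ℕ → ℕ → Cell) (G : Finset ℕ) : Finset Cell := pairs J ∅ G

def Arr (J : ℕ → ℕ → Cell) (H : Set ℕ) (DD : Cell → Set Pos) : Prop :=
  H.Infinite ∧ ∀ n, ∃ k0, ∀ k ∈ H, k0 ≤ k → ∀ l < k, Deep (n * rr (J l k).1) (DD (J l k))

def WfA (J : ℕ → ℕ → Cell) (a : ℕ) (H : Set ℕ) (DD : Cell → Set Pos) : Prop :=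
  ∀ k ∈ H, a ≤ k ∧ ∀ l < k, ∀ P ∈ DD (J l k), Wf (J l k) a P

def LeA (J : ℕ → ℕ → Cell) (H' : Set ℕ) (DD' : Cell → Set Pos) (H : Set ℕ)
    (DD : Cell → Set Pos) : Prop :=
  H' ⊆ H ∧ ∀ k ∈ H', ∀ l < k, DD' (J l k) ⊆ DD (J l k)

def Acp (J : ℕ → ℕ → Cell) (Y : Set Move) (F : Finset ℕ) (s : Move) (H : Set ℕ)
    (DD : Cell → Set Pos) : Prop :=
  ∀ H' ⊆ H, H'.Infinite → ∀ f : Cell → Set Move,
    (∀ k ∈ H', ∀ l < k, (l ∈ F ∨ l ∈ H') → f (J l k) ∈ OU DD (J l k)) →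
      ∃ G : Finset ℕ, (G : Set ℕ) ⊆ H' ∧ ∃ t ∈ Comp (pairs J F G) f, s ∪ t ∈ Y

def Rej (J : ℕ → ℕ → Cell) (Y : Set Move) (F : Finset ℕ) (s : Move) (H : Set ℕ)
    (DD : Cell → Set Pos) : Prop :=
  ∀ H' DD', LeA J H' DD' H DD → Arr J H' DD' → ¬ Acp J Y F s H' DD'

def Dcd (J : ℕ → ℕ → Cell) (a : ℕ) (Y : Set Move) (H : Set ℕ) (DD : Cell → Set Pos) : Prop :=
  ∀ k ∈ H, ∀ F : Finset ℕ, (∀ l ∈ F, l ≤ k) → ∀ s ∈ Mv (0, (J 0 (k + 1)).1) a,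
    Acp J Y F s (H ∩ Ioi k) DD ∨ Rej J Y F s (H ∩ Ioi k) DD

def Pass1Stmt : Prop := ∀ (J : ℕ → ℕ → Cell) (a : ℕ) (Y : Set Move) (H : Set ℕ)
  (DD : Cell → Set Pos), Grid J → Arr J H DD →
    ∃ H' DD', H' ⊆ H ∧ (∀ C, DD' C ⊆ DD C) ∧ Arr J H' DD' ∧ Dcd J a Y H' DD'

def StepStmt : Prop := ∀ (J : ℕ → ℕ → Cell) (a : ℕ) (Y : Set Move) (H : Set ℕ)
  (DD : Cell → Set Pos), Grid J → WfA J a H DD → Arr J H DD → Dcd J a Y H DD →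
    ∀ (F : Finset ℕ) (m n : ℕ), (∀ l ∈ F, l ≤ m) → ∃ k ∈ H, m < k ∧ ∃ DD' : Cell → Set Pos,
      (∀ C, DD' C ⊆ DD C) ∧ (∀ l < k, Deep (n * rr (J l k).1) (DD' (J l k))) ∧
        ∀ s ∈ Mv (0, (J 0 (m + 1)).1) a, Rej J Y F s (H ∩ Ioi m) DD →
          ∀ t ∈ Comp (F.image fun l => J l k) (MU DD'),
            Rej J Y (insert k F) (s ∪ t) (H ∩ Ioi k) DD

def IR2Stmt : Prop := ∀ (J : ℕ → ℕ → Cell) (a : ℕ) (Y : Set Move) (H : Set ℕ)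
  (DD : Cell → Set Pos), Grid J → WfA J a H DD → Arr J H DD →
    ∃ H' DD', H' ⊆ H ∧ (∀ C, DD' C ⊆ DD C) ∧ Arr J H' DD' ∧
      (∀ k ∈ H', ∀ l < k, (DD' (J l k)).Nonempty) ∧
      ((∀ G : Finset ℕ, (G : Set ℕ) ⊆ H' → ∀ t ∈ Comp (sq J G) (MU DD'), t ∉ Y) ∨
        Acp J Y ∅ ∅ H' DD')

/-- Acceptance is witnessed on a finite set, uniformly in the offers (compactness). -/
def CptStmt : Prop := ∀ (J : ℕ → ℕ → Cell) (a : ℕ) (Y : Set Move) (H : Set ℕ)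
  (DD : Cell → Set Pos), Grid J → WfA J a H DD → Acp J Y ∅ ∅ H DD →
    ∀ H' ⊆ H, H'.Infinite → ∃ G : Finset ℕ, (G : Set ℕ) ⊆ H' ∧ ∀ G' : Finset ℕ, G ⊆ G' →
      (G' : Set ℕ) ⊆ H → ∀ f : Cell → Set Move, (∀ C ∈ sq J G', f C ∈ OU DD C) →
        ∃ t ∈ Comp (sq J G') f, t ∈ Y

/-- A family of finite sets of size at least two, upward closed inside `H`, that every infinite
subset of `H` meets. -/
def Dns (AA : Set (Finset ℕ)) (H : Set ℕ) : Prop :=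
  (∀ G ∈ AA, 2 ≤ G.card) ∧ (∀ G ∈ AA, ∀ G' : Finset ℕ, G ⊆ G' → (G' : Set ℕ) ⊆ H → G' ∈ AA) ∧
    ∀ H' ⊆ H, H'.Infinite → ∃ G ∈ AA, (G : Set ℕ) ⊆ H'

noncomputable def skq (J : ℕ → ℕ → Cell) (G0 : Finset ℕ) (AA : Set (Finset ℕ)) : Sk :=
  (sq J G0, (G0.powerset.filter fun G => G ∈ AA).image (sq J))

def T2At (J : ℕ → ℕ → Cell) (a : ℕ) (Φ : Sk → Prop) : Prop :=
  ∀ (AA : Set (Finset ℕ)) (H : Set ℕ), H.Infinite → (∀ k ∈ H, a ≤ k) → Dns AA H →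
    ∃ G0 : Finset ℕ, (G0 : Set ℕ) ⊆ H ∧ Φ (skq J G0 AA)

def RamStmt : Prop := ∀ (c : ℕ → ℕ → Prop) (H : Set ℕ), H.Infinite → ∃ H' ⊆ H, H'.Infinite ∧
  ((∀ l ∈ H', ∀ k ∈ H', l < k → c l k) ∨ ∀ l ∈ H', ∀ k ∈ H', l < k → ¬ c l k)

def T2SStmt : Prop := ∀ (J : ℕ → ℕ → Cell) (a l : ℕ), Grid J → T2At J a (Un a l) →
  T2At J a (ClS (Un a l))

def T2DStmt : Prop := ∀ (J : ℕ → ℕ → Cell) (a l : ℕ), Grid J → T2At J a (Un a l) →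
  T2At J a (ClD a (Un a l))

def T2Stmt : Prop := ∀ (J : ℕ → ℕ → Cell) (a l : ℕ), Grid J →
  T2At J a fun s => SkWf s ∧ Un a l s

/-- Long skeletons of large norm whose offers have at least two cells. -/
def T1Stmt : Prop := ∀ (h : ℕ → ℕ) (l : ℕ), ∃ s : Sk, SkWf s ∧ Un l l s ∧
  (∀ J ∈ s.1, l ≤ J.1 ∧ h J.1 < J.2) ∧ ∀ c ∈ s.2, 2 ≤ c.card

abbrev Lam : Type := Cell → Finset ℕ → ℕ → Prop

def Spl (lam : Lam) (J : Cell) (l : ℕ) : ℕ → Finset ℕ → Prop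
  | 0, x => lam J x l
  | d + 1, x => ∀ A : Finset ℕ, Spl lam J l d (x ∩ A) ∨ Spl lam J l d (x \ A)

/-- Cell systems. -/
structure CS (lam : Lam) : Prop where
  anti : ∀ J x l, lam J x (l + 1) → lam J x l
  mono : ∀ J x x' l, lam J x l → (∀ e ∈ x, inC J e → e ∈ x') → lam J x' l
  ne : ∀ J x, lam J x 1 → ∃ e ∈ x, inC J e
  big : ∀ J x l, lam J x (l + 1) → Spl lam J l (RR J.1) x

def leaf (a : ℕ) (J : Cell) (x : Finset ℕ) : Pos :=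
  ({t | t = ∅ ∨ ∃ e ∈ x, inC J e ∧ ∃ ρ < a, t = {(e, ρ)}},
    {o | ∃ f : ℕ → ℕ, (∀ ρ < a, f ρ ∈ x ∧ inC J (f ρ)) ∧
      o = {t | t = ∅ ∨ ∃ ρ < a, t = {(f ρ, ρ)}}})

def L1Stmt : Prop := ∀ (lam : Lam) (a l : ℕ) (J : Cell) (x : Finset ℕ), CS lam → a ≤ J.1 →
  lam J x (l + 1) → Deep (dD J.1) {P | ∃ x' ⊆ x, lam J x' l ∧ P = leaf a J x'}

/-- The pattern `q` refines the pattern `p`. -/
def Ref (q p : Pat) : Prop :=
  p.1 ⊆ q.1 ∧ ∀ J ∈ p.1, (∃ e ∈ q.2, inC J e) ∧ ∀ e ∈ q.2, inC J e → e ∈ p.2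

def Req (U : Pat → Prop) : Prop := ∀ p q, U p → Ref q p → U q

def Mod (lam : Lam) (a m : ℕ) (σ : Sta) : Prop :=
  SkWf σ.1 ∧ Un a m σ.1 ∧ (∀ J ∈ σ.1.1, a ≤ J.1 ∧ lam J σ.2 m) ∧
    ∀ e ∈ σ.2, ∃ J ∈ σ.1.1, inC J e

def Meets (U : Pat → Prop) (σ : Sta) : Prop := ∀ c ∈ σ.1.2, U (c, σ.2)

def Sub (σ' σ : Sta) : Prop := Le σ'.1 σ.1 ∧ σ'.2 ⊆ σ.2

def SplitStmt : Prop := ∀ (lam : Lam) (a m : ℕ) (σ : Sta) (A : Set ℕ), CS lam →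
  Mod lam a (m + 1) σ → ∃ σ', Sub σ' σ ∧ Mod lam a m σ' ∧
    ((∀ e ∈ σ'.2, e ∈ A) ∨ ∀ e ∈ σ'.2, e ∉ A)

/-- Composition of a skeleton with states in its cells. -/
noncomputable def cmpS (s : Sk) (τ : Cell → Sta) : Sta :=
  (cmp s fun J => (τ J).1, s.1.biUnion fun J => (τ J).2)

def CmpStmt : Prop := ∀ (lam : Lam) (a l : ℕ) (s : Sk) (τ : Cell → Sta), CS lam → SkWf s →
  Un a l s → (∀ J ∈ s.1, a ≤ J.1 ∧ Mod lam J.1 l (τ J) ∧ Ins (τ J).1.1 J) →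
    Mod lam a l (cmpS s τ) ∧
      (∀ u ∈ (cmpS s τ).1.2, ∃ c ∈ s.2, (∀ J ∈ c, ∃ c' ∈ (τ J).1.2, c' ⊆ u) ∧
        ∀ C ∈ u, ∃ J ∈ c, C ∈ (τ J).1.1) ∧
      ∀ J ∈ s.1, ∀ e, inC J e → (e ∈ (cmpS s τ).2 ↔ e ∈ (τ J).2)

/-- Every choice of one element for each cell and role contains a move of `X`. -/
def TLp (a : ℕ) (X : Move → Prop) (p : Pat) : Prop :=
  ∀ f : Cell × ℕ →₀ ℕ, (∀ J ∈ p.1, ∀ ρ < a, f (J, ρ) ∈ p.2 ∧ inC J (f (J, ρ))) →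
    ∃ t, X t ∧ ∃ g : ℕ × ℕ →₀ Cell, (∀ q ∈ t, g q ∈ p.1 ∧ q.2 < a ∧ q.1 = f (g q, q.2)) ∧
      ∀ q ∈ t, ∀ q' ∈ t, g q = g q' → q = q'

/-- A move with roles below `a`, elements in `A`, at most one in each cell of `Pi`. -/
def Legal (Pi : Cell → Prop) (a : ℕ) (A : ℕ → Prop) (t : Move) : Prop :=
  ∃ g : ℕ × ℕ →₀ Cell, (∀ q ∈ t, Pi (g q) ∧ inC (g q) q.1 ∧ q.2 < a ∧ A q.1) ∧
    ∀ q ∈ t, ∀ q' ∈ t, g q = g q' → q = q'

def InP (A : ℕ → Prop) (p : Pat) : Prop := ∃ J ∈ p.1, ∀ e ∈ p.2, inC J e → A e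

/-- The cell system lives on the disjoint family `Pi`. -/
def On (lam : Lam) (Pi : Cell → Prop) : Prop :=
  (∀ J x, lam J x 1 → Pi J) ∧ ∀ J J' e, Pi J → Pi J' → inC J e → inC J' e → J = J'

/-- An array of states. -/
def ArS (lam : Lam) (J : ℕ → ℕ → Cell) (σ : ℕ → ℕ → Sta) : Prop :=
  Grid J ∧ ∀ l k, l < k → Mod lam (J l k).1 (k + 1) (σ l k) ∧ Ins (σ l k).1.1 (J l k)

/-- The families of positions of an array of states. -/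
def arD (lam : Lam) (a : ℕ) (J : ℕ → ℕ → Cell) (σ : ℕ → ℕ → Sta) (C : Cell) : Set Pos :=
  {Q | ∃ l k, l < k ∧ C = J l k ∧ ∃ σ', Sub σ' (σ l k) ∧ Mod lam C.1 k σ' ∧
    Q = CompP σ'.1 fun B => leaf a B σ'.2}

def ArDStmt : Prop := ∀ (lam : Lam) (a : ℕ) (J : ℕ → ℕ → Cell) (σ : ℕ → ℕ → Sta), CS lam →
  ArS lam J σ → WfA J a (Ici a) (arD lam a J σ) ∧ Arr J (Ici a) (arD lam a J σ)

/-- The first alternative. -/
def KillD (lam : Lam) (Pi : Cell → Prop) (a : ℕ) (X : Move → Prop) (J : ℕ → ℕ → Cell)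
    (σ : ℕ → ℕ → Sta) (H : ℕ → Prop) (σ' : ℕ → ℕ → Sta) : Prop :=
  (∀ n, ∃ k, n ≤ k ∧ H k) ∧
    (∀ l k, l < k → H l → H k → Sub (σ' l k) (σ l k) ∧ Mod lam (J l k).1 k (σ' l k)) ∧
      ∀ t, X t → ¬ Legal Pi a (fun e => ∃ l k, l < k ∧ H l ∧ H k ∧ e ∈ (σ' l k).2) t

/-- The second alternative. -/
def AccD (lam : Lam) (a : ℕ) (X : Move → Prop) (σ : ℕ → ℕ → Sta) : Prop :=
  ∀ c, ∃ ρ : Sta, Mod lam c c ρ ∧ Meets (TLp a X) ρ ∧ (∀ e ∈ ρ.2, ∃ l k, l < k ∧ e ∈ (σ l k).2) ∧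
    ∀ u ∈ ρ.1.2, ∃ l k, l < k ∧ c ≤ k ∧ ∃ c' ∈ (σ l k).1.2, Ref (u, ρ.2) (c', (σ l k).2)

def TlkFStmt : Prop := ∀ (lam : Lam) (Pi : Cell → Prop) (a : ℕ) (X : Move → Prop)
  (J : ℕ → ℕ → Cell) (σ : ℕ → ℕ → Sta) (H : Set ℕ) (DD : Cell → Set Pos), CS lam → On lam Pi →
    ArS lam J σ → H.Infinite → (∀ C, DD C ⊆ arD lam a J σ C) →
      (∀ k ∈ H, ∀ l < k, (DD (J l k)).Nonempty) →
        (∀ G : Finset ℕ, (G : Set ℕ) ⊆ H → ∀ t ∈ Comp (sq J G) (MU DD), t ∉ {t | X t}) →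
          ∃ σ', KillD lam Pi a X J σ (fun k => k ∈ H) σ'

def TlkAStmt : Prop := ∀ (lam : Lam) (a : ℕ) (X : Move → Prop)
  (J : ℕ → ℕ → Cell) (σ : ℕ → ℕ → Sta) (H : Set ℕ) (DD : Cell → Set Pos), CS lam →
    ArS lam J σ → H.Infinite → WfA J a H DD → (∀ C, DD C ⊆ arD lam a J σ C) →
      (∀ k ∈ H, ∀ l < k, (DD (J l k)).Nonempty) → Acp J {t | X t} ∅ ∅ H DD → AccD lam a X σ

def TlkStmt : Prop := ∀ (lam : Lam) (Pi : Cell → Prop) (a : ℕ) (X : Move → Prop)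
  (J : ℕ → ℕ → Cell) (σ : ℕ → ℕ → Sta), CS lam → On lam Pi → ArS lam J σ →
    (∃ H σ', KillD lam Pi a X J σ H σ') ∨ AccD lam a X σ

/-! Basic facts. -/

theorem Deep.mono : ∀ {d : ℕ} {D D' : Set Pos}, Deep d D → D ⊆ D' → Deep d D'
  | 0, _, _, h, e => Set.Nonempty.mono e h
  | _ + 1, _, _, h, e => fun Y => (h Y).imp
      (fun h' => Deep.mono h' fun _ hP => ⟨e hP.1, hP.2⟩)
      (fun h' => Deep.mono h' fun _ hP => ⟨e hP.1, hP.2⟩)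

theorem Deep.pred {d : ℕ} {D : Set Pos} (h : Deep (d + 1) D) : Deep d D :=
  (h ∅).elim (fun h' => h'.mono fun _ hP => hP.1) fun h' => h'.mono fun _ hP => hP.1

theorem Deep.anti {d d' : ℕ} {D : Set Pos} (h : Deep d D) (e : d' ≤ d) : Deep d' D := by
  induction e with
  | refl => exact h
  | step _ ih => exact ih h.pred

theorem Deep.nonempty {d : ℕ} {D : Set Pos} (h : Deep d D) : D.Nonempty := h.anti (Nat.zero_le d)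

/-- The position `P'` decides whatever `P` decides. -/
def Bet (P' P : Pos) : Prop := P'.1 ⊆ P.1 ∧ ∀ o' ∈ P'.2, ∃ o ∈ P.2, o ⊆ o'

theorem Deep.transfer : ∀ {d : ℕ} {D D' : Set Pos}, Deep d D →
    (∀ P ∈ D, ∃ P' ∈ D', Bet P' P) → Deep d D'
  | 0, _, _, ⟨P, hP⟩, e => let ⟨P', h, _⟩ := e P hP; ⟨P', h⟩
  | _ + 1, _, _, h, e => fun Y => (h Y).imp
      (fun h' => Deep.transfer h' fun P hP => let ⟨P', h1, h2⟩ := e P hP.1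
        ⟨P', ⟨h1, fun t ht => hP.2 t (h2.1 ht)⟩, h2⟩)
      (fun h' => Deep.transfer h' fun P hP => let ⟨P', h1, h2⟩ := e P hP.1
        ⟨P', ⟨h1, fun o' ho' => let ⟨o, h3, h4⟩ := h2.2 o' ho'; let ⟨t, h5, h6⟩ := hP.2 o h3
          ⟨t, h4 h5, h6⟩⟩, h2⟩)

theorem rr_pos (a : ℕ) : 0 < rr a := Nat.pos_of_ne_zero (by simp [rr])

theorem rr_mono {a b : ℕ} (h : a ≤ b) : rr a ≤ rr b :=
  Nat.pow_le_pow_right (by norm_num) (Nat.mul_le_mul h h)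

theorem dD_mono {a b : ℕ} (h : a ≤ b) : dD a ≤ dD b := Nat.mul_le_mul h (rr_mono h)

theorem RR_mono {a b : ℕ} (h : a ≤ b) : RR a ≤ RR b :=
  Nat.succ_le_succ (Nat.mul_le_mul h (dD_mono h))

theorem RR_pos (a : ℕ) : 1 ≤ RR a := Nat.succ_le_succ (Nat.zero_le _)

theorem mem_rs {t : Move} {J : Cell} {p : ℕ × ℕ} : p ∈ rs t J ↔ p ∈ t ∧ inC J p.1 :=
  Finset.mem_filter

theorem rs_eq_self {t : Move} {J : Cell} (h : ∀ p ∈ t, inC J p.1) : rs t J = t :=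
  Finset.filter_true_of_mem h

theorem rs_eq_empty {t : Move} {J : Cell} (h : ∀ p ∈ t, ¬ inC J p.1) : rs t J = ∅ :=
  Finset.filter_false_of_mem h

theorem rs_union (t u : Move) (J : Cell) : rs (t ∪ u) J = rs t J ∪ rs u J := by
  ext p; simp only [mem_rs, Finset.mem_union]; tauto

theorem Mv.mono {J : Cell} {a b : ℕ} (h : a ≤ b) : Mv J a ⊆ Mv J b :=
  fun _ ht p hp => ⟨(ht p hp).1, (ht p hp).2.trans_le h⟩

theorem Wf.mono {J : Cell} {a b : ℕ} {P : Pos} (h : Wf J a P) (e : a ≤ b) : Wf J b P :=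
  ⟨h.1, h.2.1.trans (Mv.mono e), fun o ho => ⟨(h.2.2 o ho).1, (h.2.2 o ho).2.trans (Mv.mono e)⟩⟩

theorem Disj.eq {W : Finset Cell} (h : Disj W) {J J' : Cell} (hJ : J ∈ W) (hJ' : J' ∈ W) {e : ℕ}
    (h1 : inC J e) (h2 : inC J' e) : J = J' := by
  by_contra hn
  rcases h.2 J hJ J' hJ' hn with h3 | h3 <;> unfold inC at h1 h2 <;> omega

theorem Disj.subset {W W' : Finset Cell} (h : Disj W) (e : W' ⊆ W) : Disj W' :=
  ⟨fun J hJ => h.1 J (e hJ), fun J hJ J' hJ' => h.2 J (e hJ) J' (e hJ')⟩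

theorem empty_mem_comp {W : Finset Cell} {F : Cell → Set Move} (h : ∀ J ∈ W, ∅ ∈ F J) :
    ∅ ∈ Comp W F :=
  ⟨fun _ hp => absurd hp (Finset.notMem_empty _), fun J hJ => by
    rw [rs_eq_empty fun _ hp => absurd hp (Finset.notMem_empty _)]; exact h J hJ⟩

/-- Adding cells whose families contain the empty move keeps all composite moves. -/
theorem Comp.mono_cells {W W' : Finset Cell} {F : Cell → Set Move} (hd : Disj W') (e : W ⊆ W')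
    (h0 : ∀ J ∈ W', J ∉ W → ∅ ∈ F J) : Comp W F ⊆ Comp W' F := fun t ht => by
  refine ⟨fun p hp => let ⟨J, h1, h2⟩ := ht.1 p hp; ⟨J, e h1, h2⟩, fun J hJ => ?_⟩
  by_cases h : J ∈ W
  · exact ht.2 J h
  · rw [rs_eq_empty fun p hp h2 => ?_]
    · exact h0 J hJ h
    · obtain ⟨J', h3, h4⟩ := ht.1 p hp
      exact h (hd.eq hJ (e h3) h2 h4 ▸ h3)

theorem Comp.mono_fam {W : Finset Cell} {F F' : Cell → Set Move} (h : ∀ J ∈ W, F J ⊆ F' J) :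
    Comp W F ⊆ Comp W F' := fun _ ht => ⟨ht.1, fun J hJ => h J hJ (ht.2 J hJ)⟩

theorem Le.trans {s s' s'' : Sk} (h : Le s'' s') (h' : Le s' s) : Le s'' s :=
  ⟨h.1.trans h'.1, h.2.1.trans h'.2.1, h.2.2⟩

theorem SkWf.le_self {s : Sk} (h : SkWf s) : Le s s :=
  ⟨subset_rfl, subset_rfl, fun c hc => (h.2 c hc).1⟩

theorem SkWf.of_le {s s' : Sk} (h : SkWf s) (e : Le s' s) : SkWf s' :=
  ⟨h.1.subset e.1, fun c hc => ⟨e.2.2 c hc, (h.2 c (e.2.1 hc)).2⟩⟩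

theorem ClS.up {U : Sk → Prop} {s s' : Sk} (h : ClS U s') (e : Le s' s) : ClS U s := fun W1 =>
  let ⟨s'', h1, h2⟩ := h W1; ⟨s'', h1.trans e, h2⟩

theorem Fam.up {U : Sk → Prop} {s s' : Sk} (e : Le s' s) (DD : Cell → Set Pos) :
    Fam U s' DD ⊆ Fam U s DD := fun _ ⟨s'', h1, h2⟩ => ⟨s'', h1.trans e, h2⟩

theorem ClD.up {a : ℕ} {U : Sk → Prop} {s s' : Sk} (h : ClD a U s') (e : Le s' s) : ClD a U s :=
  fun DD hD => (h DD fun J hJ => hD J (e.1 hJ)).mono (Fam.up e DD)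

theorem Un.up {a l : ℕ} {s s' : Sk} (h : Un a l s') (e : Le s' s) : Un a l s := by
  cases l with
  | zero => exact Finset.Nonempty.mono e.2.1 h
  | succ l => exact ⟨h.1.up e, h.2.up e⟩

theorem Un.pred {a l : ℕ} {s : Sk} (h : Un a (l + 1) s) : Un a l s :=
  let ⟨_, h1, h2, _⟩ := h.1 ∅; h2.up h1

theorem Un.anti {a l l' : ℕ} {s : Sk} (h : Un a l s) (e : l' ≤ l) : Un a l' s := by
  induction e with
  | refl => exact h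
  | step _ ih => exact ih h.pred

theorem Un.nonempty {a l : ℕ} {s : Sk} (h : Un a l s) : s.2.Nonempty := h.anti (Nat.zero_le l)

theorem Un.down {a a' : ℕ} (e : a' ≤ a) : ∀ {l : ℕ} {s : Sk}, Un a l s → Un a' l s
  | 0, _, h => h
  | _ + 1, _, h => ⟨fun W1 => let ⟨s', h1, h2, h3⟩ := h.1 W1; ⟨s', h1, Un.down e h2, h3⟩,
      fun DD hD => ((h.2 DD fun J hJ => ⟨fun P hP => ((hD J hJ).1 P hP).mono e, (hD J hJ).2⟩).anti
        (dD_mono e)).mono fun _ ⟨s', h1, h2, h3⟩ => ⟨s', h1, Un.down e h2, h3⟩⟩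

theorem Un.both {a l a' l' : ℕ} {s : Sk} (h : Un a l s) (e : a' ≤ a) (e' : l' ≤ l) : Un a' l' s :=
  (h.anti e').down e

theorem un_single {a : ℕ} {J : Cell} (h : a ≤ J.1) : ∀ l, Un a l ({J}, {{J}})
  | 0 => ⟨{J}, Finset.mem_singleton_self _⟩
  | l + 1 => by
    have hl : Le ({J}, {{J}}) ({J}, {{J}}) :=
      ⟨subset_rfl, subset_rfl, fun c hc => (Finset.mem_singleton.1 hc).le⟩
    refine ⟨fun W1 => ⟨_, hl, un_single h l, ?_⟩, fun DD hD => ?_⟩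
    · by_cases hJ : J ∈ W1
      · exact Or.inl (Finset.singleton_subset_iff.2 hJ)
      · exact Or.inr fun J' hJ' => Finset.mem_singleton.1 hJ' ▸ hJ
    · obtain ⟨h1, h2⟩ := hD J (Finset.mem_singleton_self _)
      refine (h2.anti (dD_mono h)).transfer fun P hP => ⟨CompP ({J}, {{J}}) fun _ => P,
        ⟨_, hl, un_single h l, fun _ => P, fun J' hJ' => Finset.mem_singleton.1 hJ' ▸ hP, rfl⟩,
        fun t ht => ?_, ?_⟩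
      · have := ht.2 J (Finset.mem_singleton_self _)
        rwa [rs_eq_self fun p hp => by simpa using ht.1 p hp] at this
      · rintro _ ⟨c, hc, f, hf, rfl⟩
        obtain rfl := Finset.mem_singleton.1 hc
        have h3 := hf J (Finset.mem_singleton_self _)
        refine ⟨f J, h3, fun t ht => ?_⟩
        have h4 := ((h1 P hP).2.2 _ h3).2 ht
        refine ⟨fun p hp => ⟨J, Finset.mem_singleton_self _, (h4 p hp).1⟩, fun J' hJ' => ?_⟩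
        obtain rfl := Finset.mem_singleton.1 hJ'
        rwa [rs_eq_self fun p hp => (h4 p hp).1]

theorem CS.le {lam : Lam} (h : CS lam) {J : Cell} {x : Finset ℕ} {l l' : ℕ} (h1 : lam J x l)
    (e : l' ≤ l) : lam J x l' := by
  induction e with
  | refl => exact h1
  | step _ ih => exact ih (h.anti _ _ _ h1)

theorem Mod.both {lam : Lam} (hl : CS lam) {a m a' m' : ℕ} {σ : Sta} (h : Mod lam a m σ)
    (e : a' ≤ a) (e' : m' ≤ m) : Mod lam a' m' σ :=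
  ⟨h.1, h.2.1.both e e', fun J hJ => ⟨e.trans (h.2.2.1 J hJ).1, hl.le (h.2.2.1 J hJ).2 e'⟩, h.2.2.2⟩

theorem Sub.trans {σ σ' σ'' : Sta} (h : Sub σ'' σ') (h' : Sub σ' σ) : Sub σ'' σ :=
  ⟨h.1.trans h'.1, h.2.trans h'.2⟩

theorem Ref.trans {p q r : Pat} (h : Ref r q) (h' : Ref q p) : Ref r p :=
  ⟨h'.1.trans h.1, fun J hJ => ⟨(h.2 J (h'.1 hJ)).1,
    fun e he hi => (h'.2 J hJ).2 e ((h.2 J (h'.1 hJ)).2 e he hi) hi⟩⟩

/-- A substate of positive norm meets the same requirements. -/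
theorem Meets.sub {lam : Lam} (hl : CS lam) {U : Pat → Prop} (hU : Req U) {σ σ' : Sta}
    (h : Meets U σ) (e : Sub σ' σ) {a m : ℕ} (hm : Mod lam a m σ') (h1 : 1 ≤ m) : Meets U σ' :=
  fun c hc => hU _ _ (h c (e.1.2.1 hc)) ⟨subset_rfl, fun J hJ =>
    ⟨hl.ne _ _ (hl.le (hm.2.2.1 J (e.1.2.2 c hc hJ)).2 h1), fun _ he _ => e.2 he⟩⟩

theorem req_tlp (a : ℕ) (X : Move → Prop) : Req (TLp a X) := fun _ _ hp e f hf =>
  let ⟨t, h1, g, h2, h3⟩ := hp f fun J hJ ρ hρ =>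
    ⟨(e.2 J hJ).2 _ (hf J (e.1 hJ) ρ hρ).1 (hf J (e.1 hJ) ρ hρ).2, (hf J (e.1 hJ) ρ hρ).2⟩
  ⟨t, h1, g, fun q hq => ⟨e.1 (h2 q hq).1, (h2 q hq).2⟩, h3⟩

theorem req_inp (A : ℕ → Prop) : Req (InP A) := fun _ _ ⟨J, h1, h2⟩ e =>
  ⟨J, e.1 h1, fun x hx hi => h2 x ((e.2 J h1).2 x hx hi) hi⟩

theorem mem_pairs {J : ℕ → ℕ → Cell} {F G : Finset ℕ} {C : Cell} :
    C ∈ pairs J F G ↔ ∃ l k, (l ∈ F ∨ l ∈ G) ∧ k ∈ G ∧ l < k ∧ C = J l k := by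
  simp only [pairs, Finset.mem_image, Finset.mem_filter, Finset.mem_product, Finset.mem_union]
  exact ⟨fun ⟨p, ⟨⟨h1, h2⟩, h3⟩, h4⟩ => ⟨p.1, p.2, h1, h2, h3, h4.symm⟩,
    fun ⟨l, k, h1, h2, h3, h4⟩ => ⟨(l, k), ⟨⟨h1, h2⟩, h3⟩, h4.symm⟩⟩

theorem mem_sq {J : ℕ → ℕ → Cell} {G : Finset ℕ} {C : Cell} :
    C ∈ sq J G ↔ ∃ l k, l ∈ G ∧ k ∈ G ∧ l < k ∧ C = J l k := by
  simp [sq, mem_pairs]

theorem Grid.inj {J : ℕ → ℕ → Cell} (h : Grid J) {l k l' k' : ℕ} (h1 : l < k) (h2 : l' < k')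
    (e : J l k = J l' k') : l = l' ∧ k = k' := by
  have a1 := (h.1 l k h1).1
  have a2 := h.2 l k l' k' h1 h2
  have a3 := h.2 l' k' l k h2 h1
  rw [← e] at a2 a3
  by_contra hn
  rcases (by omega : (k < k' ∨ (k = k' ∧ l < l')) ∨ (k' < k ∨ (k' = k ∧ l' < l))) with h3 | h3
  · have := a2 h3; omega
  · have := a3 h3; omega

theorem Grid.disj {J : ℕ → ℕ → Cell} (h : Grid J) {W : Finset Cell}
    (hW : ∀ C ∈ W, ∃ l k, l < k ∧ C = J l k) : Disj W := by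
  refine ⟨fun C hC => ?_, fun C hC C' hC' hn => ?_⟩
  · obtain ⟨l, k, h1, rfl⟩ := hW C hC
    exact (h.1 l k h1).1
  · obtain ⟨l, k, h1, rfl⟩ := hW C hC
    obtain ⟨l', k', h2, rfl⟩ := hW C' hC'
    have : ¬ (l = l' ∧ k = k') := fun e => hn (by rw [e.1, e.2])
    rcases (by omega : (k < k' ∨ (k = k' ∧ l < l')) ∨ (k' < k ∨ (k' = k ∧ l' < l))) with h3 | h3
    · exact Or.inl (h.2 l k l' k' h1 h2 h3)
    · exact Or.inr (h.2 l' k' l k h2 h1 h3)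

theorem Grid.disj_pairs {J : ℕ → ℕ → Cell} (h : Grid J) (F G : Finset ℕ) : Disj (pairs J F G) :=
  h.disj fun _ hC => let ⟨l, k, _, _, h1, h2⟩ := mem_pairs.1 hC; ⟨l, k, h1, h2⟩

theorem finite_mv (J : Cell) (a : ℕ) : (Mv J a).Finite :=
  (Finset.finite_toSet (Finset.range J.2 ×ˢ Finset.range a).powerset).subset fun t ht => by
    simp only [Finset.coe_powerset, mem_preimage, mem_powerset_iff, Finset.coe_subset]
    exact fun p hp => Finset.mem_product.2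
      ⟨Finset.mem_range.2 (ht p hp).1.2, Finset.mem_range.2 (ht p hp).2⟩

end Pool.Agent.MP_5baa61_gt.JA
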