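import Mathlib.Order.Interval.Set.Infinite
import Pool.Agent.MP_5baa61_gt.JA.Spec

/-! Leaves are deep, and an array of states gives an array of families of positions. -/

namespace Pool.Agent.MP_5baa61_gt.JA

open Set
open scoped Classical

namespace ArD

variable {lam : Lam} {J : Cell} {l : ℕ}

theorem mono (h : CS lam) : ∀ {d : ℕ} {x x' : Finset ℕ}, Spl lam J l d x → x ⊆ x' →
    Spl lam J l d x'
  | 0, _, _, h1, e => h.mono _ _ _ _ h1 fun _ he _ => e he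
  | _ + 1, _, _, h1, e => fun A => (h1 A).imp
      (fun h2 => mono h h2 (Finset.inter_subset_inter_right e))
      fun h2 => mono h h2 (Finset.sdiff_subset_sdiff e subset_rfl)

theorem anti (h : CS lam) {d d' : ℕ} {x : Finset ℕ} (h1 : Spl lam J l d x) (e : d' ≤ d) :
    Spl lam J l d' x := by
  induction e with
  | refl => exact h1
  | step _ ih =>
    exact ih ((h1 ∅).elim (fun h2 => mono h h2 Finset.inter_subset_left)
      fun h2 => mono h h2 Finset.sdiff_subset)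

theorem split (h : CS lam) (Y : Set Move) (n : ℕ) : ∀ (i : ℕ) (x : Finset ℕ),
    Spl lam J l (n + i) x → ∃ x' ⊆ x, Spl lam J l n x' ∧
      ((∀ e ∈ x', ∀ ρ < i, {(e, ρ)} ∉ Y) ∨ ∃ ρ < i, ∀ e ∈ x', {(e, ρ)} ∈ Y)
  | 0, x, h1 => ⟨x, subset_rfl, h1, Or.inl fun _ _ _ h2 => absurd h2 (Nat.not_lt_zero _)⟩
  | i + 1, x, h1 => by
    rcases h1 (x.filter fun e => {(e, i)} ∈ Y) with h2 | h2
    · exact ⟨_, Finset.inter_subset_left, anti h h2 (Nat.le_add_right _ _), Or.inr ⟨i,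
        Nat.lt_succ_self i, fun e he => (Finset.mem_filter.1 (Finset.mem_inter.1 he).2).2⟩⟩
    · obtain ⟨x', h3, h4, h5⟩ := split h Y n i _ h2
      refine ⟨x', h3.trans Finset.sdiff_subset, h4, h5.imp (fun h6 e he ρ hρ => ?_)
        fun ⟨ρ, h6, h7⟩ => ⟨ρ, Nat.lt_succ_of_lt h6, h7⟩⟩
      rcases Nat.lt_succ_iff_lt_or_eq.1 hρ with h7 | rfl
      · exact h6 e he ρ h7
      · have := Finset.mem_sdiff.1 (h3 he)
        exact fun h8 => this.2 (Finset.mem_filter.2 ⟨this.1, h8⟩)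

theorem deep (h : CS lam) (a : ℕ) : ∀ (d : ℕ) (x : Finset ℕ), Spl lam J l (a * d) x →
    Deep d {P | ∃ x' ⊆ x, lam J x' l ∧ P = leaf a J x'}
  | 0, x, h1 => ⟨_, x, subset_rfl, h1, rfl⟩
  | d + 1, x, h1 => fun Y => by
    by_cases h0 : (∅ : Move) ∈ Y
    · refine Or.inr ((deep h a d x (anti h h1 (Nat.mul_le_mul_left _ d.le_succ))).mono ?_)
      rintro _ ⟨x', h2, h3, rfl⟩
      refine ⟨⟨x', h2, h3, rfl⟩, ?_⟩
      rintro _ ⟨f, -, rfl⟩
      exact ⟨∅, Or.inl rfl, h0⟩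
    obtain ⟨y, h2, h3, h4⟩ := split h Y (a * d) a x h1
    refine h4.imp (fun h5 => (deep h a d y h3).mono ?_) fun ⟨ρ, h5, h6⟩ => (deep h a d y h3).mono ?_
    · rintro _ ⟨x', h6, h7, rfl⟩
      refine ⟨⟨x', h6.trans h2, h7, rfl⟩, ?_⟩
      rintro _ (rfl | ⟨e, he, -, ρ, hρ, rfl⟩)
      · exact h0
      · exact h5 e (h6 he) ρ hρ
    · rintro _ ⟨x', h7, h8, rfl⟩
      refine ⟨⟨x', h7.trans h2, h8, rfl⟩, ?_⟩
      rintro _ ⟨f, hf, rfl⟩
      exact ⟨_, Or.inr ⟨ρ, h5, rfl⟩, h6 _ (h7 (hf ρ h5).1)⟩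

theorem wf_leaf (a : ℕ) (J : Cell) (x : Finset ℕ) : Wf J a (leaf a J x) := by
  refine ⟨Or.inl rfl, ?_, ?_⟩
  · rintro _ (rfl | ⟨e, -, h1, ρ, hρ, rfl⟩) p hp
    · exact absurd hp (Finset.notMem_empty _)
    · obtain rfl := Finset.mem_singleton.1 hp
      exact ⟨h1, hρ⟩
  · rintro _ ⟨f, hf, rfl⟩
    refine ⟨Or.inl rfl, ?_⟩
    rintro _ (rfl | ⟨ρ, hρ, rfl⟩) p hp
    · exact absurd hp (Finset.notMem_empty _)
    · obtain rfl := Finset.mem_singleton.1 hp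
      exact ⟨(hf ρ hρ).2, hρ⟩

theorem comp_mv {a : ℕ} {W : Finset Cell} {F : Cell → Set Move} (hi : Ins W J)
    (h : ∀ B ∈ W, F B ⊆ Mv B a) : Comp W F ⊆ Mv J a := fun t ht p hp => by
  obtain ⟨B, h1, h2⟩ := ht.1 p hp
  exact ⟨⟨(hi B h1).1.trans h2.1, h2.2.trans_le (hi B h1).2⟩,
    (h B h1 (ht.2 B h1) p (mem_rs.2 ⟨hp, h2⟩)).2⟩

theorem wf_comp {a : ℕ} {s : Sk} {P : Cell → Pos} (hi : Ins s.1 J) (hs : ∀ c ∈ s.2, c ⊆ s.1)
    (h : ∀ B, Wf B a (P B)) : Wf J a (CompP s P) := by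
  refine ⟨empty_mem_comp fun B _ => (h B).1, comp_mv hi fun B _ => (h B).2.1, ?_⟩
  rintro _ ⟨c, hc, f, hf, rfl⟩
  exact ⟨empty_mem_comp fun B hB => ((h B).2.2 _ (hf B hB)).1,
    comp_mv (fun B hB => hi B (hs c hc hB)) fun B hB => ((h B).2.2 _ (hf B hB)).2⟩

theorem leaf_congr {a : ℕ} {x y : Finset ℕ} (h : ∀ e, inC J e → (e ∈ x ↔ e ∈ y)) :
    leaf a J x = leaf a J y := by
  have h1 : ∀ e, (e ∈ x ∧ inC J e) ↔ (e ∈ y ∧ inC J e) := fun e => and_congr_left (h e)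
  simp only [leaf, ← and_assoc, h1]

end ArD

open ArD

theorem l1 : L1Stmt := fun _ a _ _ x h ha h1 =>
  deep h a _ x (anti h (h.big _ _ _ h1) (Nat.le_succ_of_le (Nat.mul_le_mul_right _ ha)))

theorem arD_ok (h : L1Stmt) : ArDStmt := by
  intro lam a J σ hl hA
  refine ⟨fun k hk => ⟨hk, ?_⟩, Set.Ici_infinite a, fun n => ⟨n, fun k hk hn l hlk => ?_⟩⟩
  · rintro l - _ ⟨l', k', h1, h2, σ', h3, -, rfl⟩
    rw [h2]
    exact wf_comp (fun B hB => (hA.2 l' k' h1).2 B (h3.1.1 hB)) h3.1.2.2 fun B => wf_leaf a B _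
  · obtain ⟨⟨m1, m2, m3, -⟩, -⟩ := hA.2 l k hlk
    have e1 := (hA.1.1 l k hlk).2
    have e2 : a ≤ (J l k).1 := le_trans hk e1
    refine ((m2.2 (fun B => {P | ∃ x' ⊆ (σ l k).2, lam B x' k ∧ P = leaf a B x'}) fun B hB =>
      ⟨?_, h lam a k B _ hl (e2.trans (m3 B hB).1) (m3 B hB).2⟩).anti
        (Nat.mul_le_mul_right _ (hn.trans e1))).transfer ?_
    · rintro _ ⟨x', -, -, rfl⟩
      exact (wf_leaf a B x').mono e2
    · rintro _ ⟨s, s1, s2, P, hP, rfl⟩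
      choose! x x1 x2 x3 using hP
      have w := m1.of_le s1
      have hy : ∀ B ∈ s.1, ∀ e, inC B e →
          (e ∈ s.1.biUnion (fun B => (x B).filter (inC B)) ↔ e ∈ x B) := fun B hB e he => by
        simp only [Finset.mem_biUnion, Finset.mem_filter]
        exact ⟨fun ⟨B', h1, h2, h3⟩ => w.1.eq h1 hB h3 he ▸ h2, fun h1 => ⟨B, hB, h1, he⟩⟩
      have hz : ∀ B ∈ s.1, leaf a B (s.1.biUnion fun B => (x B).filter (inC B)) = P B :=
        fun B hB => by rw [x3 B hB, leaf_congr (hy B hB)]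
      refine ⟨_, ⟨l, k, hlk, rfl, (s, s.1.biUnion fun B => (x B).filter (inC B)),
        ⟨s1, fun e he => ?_⟩, ⟨w, s2, fun B hB => ⟨(m3 B (s1.1 hB)).1,
          hl.mono _ _ _ _ (x2 B hB) fun e he hi => (hy B hB e hi).2 he⟩, fun e he => ?_⟩, rfl⟩,
        Comp.mono_fam fun B hB => (congrArg Prod.fst (hz B hB)).subset, ?_⟩
      · obtain ⟨B, h1, h2⟩ := Finset.mem_biUnion.1 he
        exact x1 B h1 (Finset.mem_filter.1 h2).1
      · obtain ⟨B, h1, h2⟩ := Finset.mem_biUnion.1 he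
        exact ⟨B, h1, (Finset.mem_filter.1 h2).2⟩
      · rintro _ ⟨c, hc, f, hf, rfl⟩
        exact ⟨_, ⟨c, hc, f, fun B hB => hz B (s1.2.2 c hc hB) ▸ hf B hB, rfl⟩, subset_rfl⟩

end Pool.Agent.MP_5baa61_gt.JA
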