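import Pool.Agent.MP_5baa61_gt.JA.Spec

/-! Thickening, splitting of states, composition of states. -/

namespace Pool.Agent.MP_5baa61_gt.JA

open Set
open scoped Classical

namespace Split

theorem mem_thk {a l : ℕ} {s : Sk} {u : Finset Cell} :
    u ∈ (thk a l s).2 ↔ u ⊆ s.1 ∧ ∃ s1, Le s1 s ∧ s1.1 ⊆ u ∧ Un a l s1 := by
  simp only [thk, Finset.mem_filter, Finset.mem_powerset]

theorem thk_le {a l : ℕ} {s s' : Sk} (h : Le s' s) : Le (thk a l s') (thk a l s) :=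
  ⟨h.1, fun _ hu => let ⟨h1, s1, h2, h3⟩ := mem_thk.1 hu
    mem_thk.2 ⟨h1.trans h.1, s1, h2.trans h, h3⟩, fun _ hu => (mem_thk.1 hu).1⟩

/-- Every new offer contains an old offer. -/
theorem thk_sub {a l : ℕ} {s : Sk} {u : Finset Cell} (hu : u ∈ (thk a l s).2) :
    ∃ c ∈ s.2, c ⊆ u :=
  let ⟨_, _, h2, h3, h4⟩ := mem_thk.1 hu
  let ⟨c, hc⟩ := h4.nonempty
  ⟨c, h2.2.1 hc, (h2.2.2 c hc).trans h3⟩

theorem thk_wf {a l : ℕ} {s : Sk} (h : SkWf s) : SkWf (thk a l s) :=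
  ⟨h.1, fun _ hu => let ⟨c, h1, h2⟩ := thk_sub hu
    ⟨(mem_thk.1 hu).1, (h.2 c h1).2.mono h2⟩⟩

theorem thk_un {a l : ℕ} : ∀ (m : ℕ) (s : Sk), SkWf s → Un a (m + l) s → Un a m (thk a l s)
  | 0, s, hw, h => ⟨s.1, mem_thk.2 ⟨subset_rfl, s, hw.le_self, subset_rfl, by
      rwa [Nat.zero_add] at h⟩⟩
  | m + 1, s, hw, h => by
    rw [Nat.add_right_comm] at h
    refine ⟨fun W1 => ?_, fun DD hD => (h.2 DD hD).transfer ?_⟩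
    · obtain ⟨s', h1, h2, h3⟩ := h.1 W1
      exact ⟨thk a l s', thk_le h1, thk_un m s' (hw.of_le h1) h2, h3⟩
    · rintro _ ⟨s', h1, h2, P, h3, rfl⟩
      refine ⟨CompP (thk a l s') P, ⟨_, thk_le h1, thk_un m s' (hw.of_le h1) h2, P, h3, rfl⟩,
        subset_rfl, ?_⟩
      rintro _ ⟨u, hu, f, hf, rfl⟩
      obtain ⟨c, h4, h5⟩ := thk_sub hu
      have h6 := (mem_thk.1 hu).1
      exact ⟨Comp c f, ⟨c, h4, f, fun J hJ => hf J (h5 hJ), rfl⟩,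
        Comp.mono_cells (hw.1.subset (h6.trans h1.1)) h5 fun J hJ _ =>
          (((hD J (h1.1 (h6 hJ))).1 _ (h3 J (h6 hJ))).2.2 _ (hf J hJ)).1⟩

theorem spl_lam {lam : Lam} (hl : CS lam) {J : Cell} {m : ℕ} :
    ∀ (d : ℕ) (x : Finset ℕ), Spl lam J m d x → lam J x m
  | 0, _, h => h
  | d + 1, x, h => (h x).elim
      (fun h' => hl.mono _ _ _ _ (spl_lam hl d _ h') fun _ he _ => (Finset.mem_inter.1 he).1)
      fun h' => hl.mono _ _ _ _ (spl_lam hl d _ h') fun _ he _ => (Finset.mem_sdiff.1 he).1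

theorem one {lam : Lam} (hl : CS lam) {J : Cell} {m : ℕ} {x : Finset ℕ} (h : lam J x (m + 1))
    (A : Finset ℕ) : lam J (x ∩ A) m ∨ lam J (x \ A) m :=
  (hl.big J x m h A).imp (spl_lam hl _ _) (spl_lam hl _ _)

theorem cut {lam : Lam} (hl : CS lam) {a m m' : ℕ} {σ : Sta} (h : Mod lam a m' σ) {s : Sk}
    (h1 : Le s σ.1) (h2 : Un a m s) {y : Finset ℕ} (h3 : y ⊆ σ.2) (h4 : ∀ J ∈ s.1, lam J y m) :
    ∃ σ', Sub σ' σ ∧ Mod lam a m σ' ∧ σ'.2 ⊆ y :=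
  ⟨(s, y.filter fun e => ∃ J ∈ s.1, inC J e), ⟨h1, (Finset.filter_subset _ _).trans h3⟩,
    ⟨h.1.of_le h1, h2, fun J hJ => ⟨(h.2.2.1 J (h1.1 hJ)).1, hl.mono _ _ _ _ (h4 J hJ)
      fun _ he hi => Finset.mem_filter.2 ⟨he, J, hJ, hi⟩⟩,
      fun _ he => (Finset.mem_filter.1 he).2⟩, Finset.filter_subset _ _⟩

end Split

theorem u6 : U6Stmt := fun _ m _ s hw h => ⟨Split.thk_wf hw, Split.thk_un m s hw h⟩

theorem split : SplitStmt := fun lam a m σ A hl h => by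
  obtain ⟨s, h1, h2, h3⟩ := h.2.1.1
    (σ.1.1.filter fun J => lam J (σ.2 ∩ σ.2.filter fun e => e ∈ A) m)
  rcases h3 with h3 | h3
  · obtain ⟨σ', h4, h5, h6⟩ := Split.cut hl h h1 h2 Finset.inter_subset_left
      fun J hJ => (Finset.mem_filter.1 (h3 hJ)).2
    exact ⟨σ', h4, h5, Or.inl fun e he =>
      (Finset.mem_filter.1 (Finset.mem_inter.1 (h6 he)).2).2⟩
  · obtain ⟨σ', h4, h5, h6⟩ := Split.cut hl h h1 h2
      (y := σ.2 \ σ.2.filter fun e => e ∈ A) Finset.sdiff_subset fun J hJ =>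
        (Split.one hl (h.2.2.1 J (h1.1 hJ)).2 _).resolve_left fun h7 =>
          h3 J hJ (Finset.mem_filter.2 ⟨h1.1 hJ, h7⟩)
    exact ⟨σ', h4, h5, Or.inr fun e he h7 => (Finset.mem_sdiff.1 (h6 he)).2
      (Finset.mem_filter.2 ⟨(Finset.mem_sdiff.1 (h6 he)).1, h7⟩)⟩

theorem cmp_ok (h : U5Stmt) : CmpStmt := fun lam a l s τ hl hw hu hτ => by
  obtain ⟨h1, h2⟩ := h a l s (fun J => (τ J).1) hw hu fun J hJ =>
    ⟨(hτ J hJ).1, (hτ J hJ).2.1.1, (hτ J hJ).2.2, (hτ J hJ).2.1.2.1⟩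
  refine ⟨⟨h1, h2, fun C hC => ?_, fun e he => ?_⟩, fun u hu => ?_, fun J hJ e hi =>
    ⟨fun he => ?_, fun he => Finset.mem_biUnion.2 ⟨J, hJ, he⟩⟩⟩
  · obtain ⟨J, hJ, h3⟩ := Finset.mem_biUnion.1 hC
    obtain ⟨h4, h5⟩ := (hτ J hJ).2.1.2.2.1 C h3
    exact ⟨(hτ J hJ).1.trans h4, hl.mono _ _ _ _ h5 fun _ he _ =>
      Finset.mem_biUnion.2 ⟨J, hJ, he⟩⟩
  · obtain ⟨J, hJ, h3⟩ := Finset.mem_biUnion.1 he
    obtain ⟨C, h4, h5⟩ := (hτ J hJ).2.1.2.2.2 e h3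
    exact ⟨C, Finset.mem_biUnion.2 ⟨J, hJ, h4⟩, h5⟩
  · obtain ⟨c, hc, f, hf, rfl⟩ := (Finset.mem_filter.1 hu).2
    refine ⟨c, hc, fun J hJ => ⟨f J, hf J hJ, Finset.subset_biUnion_of_mem f hJ⟩,
      fun C hC => ?_⟩
    obtain ⟨J, hJ, h3⟩ := Finset.mem_biUnion.1 hC
    exact ⟨J, hJ, ((hτ J ((hw.2 c hc).1 hJ)).2.1.1.2 _ (hf J hJ)).1 h3⟩
  · obtain ⟨J', hJ', h3⟩ := Finset.mem_biUnion.1 he
    obtain ⟨C, h4, h5⟩ := (hτ J' hJ').2.1.2.2.2 e h3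
    obtain ⟨h6, h7⟩ := (hτ J' hJ').2.2 C h4
    rwa [hw.1.eq hJ hJ' hi ⟨h6.trans h5.1, h5.2.trans_le h7⟩]

end Pool.Agent.MP_5baa61_gt.JA
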