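import Pool.Agent.MP_5baa61_gt.JA.Spec
import Mathlib.Data.Fintype.Pigeonhole
import Mathlib.Order.Interval.Finset.Basic
import Mathlib.Order.Interval.Finset.Nat
import Mathlib.Data.Set.Finite.Lemmas

/-! One step of the second pass: rejected states stay rejected. -/

namespace Pool.Agent.MP_5baa61_gt.JA

open Set
open scoped Classical

namespace Step

theorem comp_union {W W1 W2 : Finset Cell} {f : Cell → Set Move} {t1 t2 : Move} (hd : Disj W)
    (hW : ∀ C, C ∈ W ↔ C ∈ W1 ∨ C ∈ W2) (hn : ∀ C ∈ W1, C ∉ W2) (h1 : t1 ∈ Comp W1 f)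
    (h2 : t2 ∈ Comp W2 f) : t1 ∪ t2 ∈ Comp W f := by
  refine ⟨fun p hp => ?_, fun C hC => ?_⟩
  · rcases Finset.mem_union.1 hp with h | h
    · obtain ⟨C, c1, c2⟩ := h1.1 p h
      exact ⟨C, (hW C).2 (.inl c1), c2⟩
    · obtain ⟨C, c1, c2⟩ := h2.1 p h
      exact ⟨C, (hW C).2 (.inr c1), c2⟩
  · rw [rs_union]
    rcases (hW C).1 hC with h | h
    · rw [rs_eq_empty (t := t2) fun p hp e => ?_, Finset.union_empty]
      · exact h1.2 C h
      · obtain ⟨C', c1, c2⟩ := h2.1 p hp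
        exact hn C h (hd.eq hC ((hW C').2 (.inr c1)) e c2 ▸ c1)
    · rw [rs_eq_empty (t := t1) fun p hp e => ?_, Finset.empty_union]
      · exact h2.2 C h
      · obtain ⟨C', c1, c2⟩ := h1.1 p hp
        exact hn C (hd.eq hC ((hW C').2 (.inl c1)) e c2 ▸ c1) h

variable {J : ℕ → ℕ → Cell} {a : ℕ} {Y : Set Move} {H : Set ℕ} {DD : Cell → Set Pos}
  {F : Finset ℕ} {m n : ℕ}

/-- One column: a rejected state all of whose offers lead to accepted states. -/
theorem col (h : TupleStmt) (hG : Grid J) (hW : WfA J a H DD) (hA : Arr J H DD)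
    (hD : Dcd J a Y H DD) (hF : ∀ l ∈ F, l ≤ m)
    (hc : ∀ k ∈ H, m < k → ∀ DD' : Cell → Set Pos, (∀ C, DD' C ⊆ DD C) →
      (∀ l < k, Deep (n * rr (J l k).1) (DD' (J l k))) →
        ∃ s ∈ Mv (0, (J 0 (m + 1)).1) a, Rej J Y F s (H ∩ Ioi m) DD ∧
          ∃ t ∈ Comp (F.image fun l => J l k) (MU DD'),
            ¬ Rej J Y (insert k F) (s ∪ t) (H ∩ Ioi k) DD) (j : ℕ) :
    ∃ k ∈ H, m < k ∧ j < k ∧ ∃ DD' : Cell → Set Pos, (∀ C, DD' C ⊆ DD C) ∧
      (∀ l < k, Deep (j * rr (J l k).1) (DD' (J l k))) ∧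
      ∃ s ∈ Mv (0, (J 0 (m + 1)).1) a, Rej J Y F s (H ∩ Ioi m) DD ∧
        ∀ f : Cell → Set Move, (∀ C ∈ F.image fun l => J l k, f C ∈ OU DD' C) →
          ∃ t ∈ Comp (F.image fun l => J l k) f, Acp J Y (insert k F) (s ∪ t) (H ∩ Ioi k) DD := by
  obtain ⟨k0, h0⟩ := hA.2 (n + j + 1)
  obtain ⟨k, k1, k2⟩ := hA.1.exists_gt (m + j + k0)
  have hm : ∀ C ∈ F.image fun l => J l k, ∃ l, l < k ∧ C = J l k := fun C hC => by
    obtain ⟨l, l1, l2⟩ := Finset.mem_image.1 hC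
    exact ⟨l, by have := hF l l1; omega, l2.symm⟩
  have b0 := (hG.1 0 (m + 1) (by omega)).1
  obtain ⟨DD', d1, d2, d3, d4⟩ := h a (J 0 (m + 1)).1 (fun _ => n + j) (F.image fun l => J l k) DD
    {u | Acp J Y (insert k F) u (H ∩ Ioi k) DD}
    (hG.disj fun C hC => let ⟨l, l1, l2⟩ := hm C hC; ⟨l, k, l1, l2⟩) fun C hC => by
      obtain ⟨l, l1, rfl⟩ := hm C hC
      refine ⟨(hW k k1).1.trans (hG.1 l k l1).2, ?_, (hW k k1).2 l l1, h0 k k1 (by omega) l l1⟩
      by_cases e : m + 1 = k ∧ l = 0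
      · rw [e.1, e.2]
      · have := hG.2 0 (m + 1) l k (by omega) l1 (by omega)
        omega
  have d5 : ∀ l < k, Deep ((n + j) * rr (J l k).1) (DD' (J l k)) := fun l hl => by
    by_cases e : J l k ∈ F.image fun l => J l k
    · exact d3 _ e
    · rw [d2 _ e]
      exact (h0 k k1 (by omega) l hl).anti (Nat.mul_le_mul_right _ (Nat.le_succ _))
  obtain ⟨s, s1, s2, t, t1, t2⟩ := hc k k1 (by omega) DD' d1 fun l hl =>
    (d5 l hl).anti (Nat.mul_le_mul_right _ (Nat.le_add_right _ _))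
  refine ⟨k, k1, by omega, by omega, DD', d1, fun l hl =>
    (d5 l hl).anti (Nat.mul_le_mul_right _ (Nat.le_add_left _ _)), s, s1, s2,
    (d4 s s1).resolve_left fun e => e t t1 ((hD k k1 _ (fun l hl => ?_) _ fun p hp => ?_).resolve_right
      t2)⟩
  · rcases Finset.mem_insert.1 hl with rfl | hl
    · exact le_rfl
    · have := hF l hl
      omega
  · rcases Finset.mem_union.1 hp with hp | hp
    · have h1 := (s1 p hp).1.2
      have h2 := hG.2 0 (m + 1) 0 (k + 1) (by omega) (by omega) (by omega)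
      exact ⟨⟨Nat.zero_le _, by simp only at h1 ⊢; omega⟩, (s1 p hp).2⟩
    · obtain ⟨C, c1, c2⟩ := t1.1 p hp
      obtain ⟨P, p1, p2⟩ := t1.2 C c1
      obtain ⟨l, l1, rfl⟩ := hm C c1
      have h2 := hG.2 l k 0 (k + 1) l1 (by omega) (by omega)
      exact ⟨⟨Nat.zero_le _, c2.2.trans_le h2⟩,
        (((hW k k1).2 l l1 P (d1 _ p1)).2.1 p2 p (mem_rs.2 ⟨hp, c2⟩)).2⟩

end Step

open Step in
theorem step (h : TupleStmt) : StepStmt := by
  intro J a Y H DD hG hW hA hD F m n hF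
  by_contra hc
  push Not at hc
  choose k k1 k2 k3 E e1 e2 s s1 s2 s3 using col h hG hW hA hD hF hc
  have := (finite_mv (0, (J 0 (m + 1)).1) a).to_subtype
  obtain ⟨⟨u, u1⟩, hu⟩ := Finite.exists_infinite_fiber
    fun j => (⟨s j, s1 j⟩ : Mv (0, (J 0 (m + 1)).1) a)
  obtain ⟨S, S1, S2⟩ : ∃ S : Set ℕ, S.Infinite ∧ ∀ j ∈ S, s j = u :=
    ⟨_, infinite_coe_iff.1 hu, fun j hj => congrArg Subtype.val hj⟩
  have hg : ∀ c ∈ k '' S, ∃ j ∈ S, k j = c := fun _ h => h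
  choose! g g1 g2 using hg
  let D : Cell → Set Pos := fun C => {P | ∃ l c, l < c ∧ C = J l c ∧ P ∈ E (g c) C}
  have hDe : ∀ l c, l < c → D (J l c) = E (g c) (J l c) := fun l c hl =>
    Set.ext fun P => ⟨fun ⟨l', c', h1, h2, h3⟩ => (hG.inj hl h1 h2).2 ▸ h3,
      fun h => ⟨l, c, hl, rfl, h⟩⟩
  have hS : k '' S ⊆ H ∩ Ioi m := by
    rintro _ ⟨j, -, rfl⟩
    exact ⟨k1 j, k2 j⟩
  obtain ⟨j0, hj0⟩ := S1.nonempty
  have hR := s2 j0
  rw [S2 j0 hj0] at hR
  refine hR (k '' S) D ⟨hS, fun c _ l hl => hDe l c hl ▸ e1 _ _⟩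
    ⟨infinite_of_forall_exists_gt fun b => ?_, fun N => ⟨(Finset.range N).sup k + 1,
      fun c hc h0 l hl => ?_⟩⟩ ?_
  · obtain ⟨j, h1, h2⟩ := S1.exists_gt b
    exact ⟨k j, mem_image_of_mem _ h1, h2.trans (k3 j)⟩
  · have h1 : N ≤ g c := by
      by_contra hn
      have := Finset.le_sup (f := k) (Finset.mem_range.2 (not_le.1 hn))
      rw [g2 c hc] at this
      omega
    have h2 := e2 (g c) l (by rw [g2 c hc]; exact hl)
    rw [g2 c hc] at h2
    rw [hDe l c hl]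
    exact h2.anti (Nat.mul_le_mul_right _ h1)
  · intro H' h1 h2 f hf
    obtain ⟨c, hc⟩ := h2.nonempty
    have c1 := h1 hc
    have c2 : m < c := (hS c1).2
    have h3 := s3 (g c) f
    rw [g2 c c1, S2 _ (g1 c c1)] at h3
    obtain ⟨t, t1, t2⟩ := h3 fun C hC => by
      obtain ⟨l, l1, rfl⟩ := Finset.mem_image.1 hC
      have l2 : l < c := (hF l l1).trans_lt c2
      obtain ⟨P, p1, p2⟩ := hf c hc l l2 (.inl l1)
      exact ⟨P, hDe l c l2 ▸ p1, p2⟩
    obtain ⟨G, G1, t', t3, t4⟩ := t2 (H' ∩ Ioi c) (fun x hx => ⟨(hS (h1 hx.1)).1, hx.2⟩)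
      (infinite_of_forall_exists_gt fun b => let ⟨x, x1, x2⟩ := h2.exists_gt (max b c)
        ⟨x, ⟨x1, (le_max_right _ _).trans_lt x2⟩, (le_max_left _ _).trans_lt x2⟩) f
      fun x hx l hl hl' => by
        obtain ⟨P, p1, p2⟩ := hf x hx.1 l hl (by
          rcases hl' with hl' | hl'
          · rcases Finset.mem_insert.1 hl' with rfl | hl'
            exacts [.inr hc, .inl hl']
          · exact .inr hl'.1)
        exact ⟨P, e1 _ _ (hDe l x hl ▸ p1), p2⟩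
    have G2 : ∀ x ∈ G, c < x := fun x hx => (G1 hx).2
    refine ⟨insert c G, ?_, t ∪ t', comp_union (hG.disj_pairs _ _) (fun C => ?_) ?_ t1 t3, ?_⟩
    · rw [Finset.coe_insert]
      exact insert_subset hc fun x hx => (G1 hx).1
    · simp only [mem_pairs, Finset.mem_image, Finset.mem_insert]
      constructor
      · rintro ⟨l, x, l1, rfl | x1, l2, rfl⟩
        · rcases l1 with l1 | rfl | l1
          · exact .inl ⟨l, l1, rfl⟩
          · omega
          · have := G2 l l1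
            omega
        · exact .inr ⟨l, x, by tauto, x1, l2, rfl⟩
      · rintro (⟨l, l1, rfl⟩ | ⟨l, x, l1, x1, l2, rfl⟩)
        · exact ⟨l, c, .inl l1, .inl rfl, (hF l l1).trans_lt c2, rfl⟩
        · exact ⟨l, x, by tauto, .inr x1, l2, rfl⟩
    · intro C hC hC'
      obtain ⟨l, l1, rfl⟩ := Finset.mem_image.1 hC
      obtain ⟨l', x, -, x1, l2, e⟩ := mem_pairs.1 hC'
      exact (G2 x x1).ne (hG.inj ((hF l l1).trans_lt c2) l2 e).2
    · rw [← Finset.union_assoc]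
      exact t4

end Pool.Agent.MP_5baa61_gt.JA
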