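import Pool.Agent.MP_5baa61_gt.JA.Spec
import Mathlib.Order.Interval.Set.Infinite
import Mathlib.Data.Set.Finite.Lattice

/-! Long skeletons of large universal norm. -/

namespace Pool.Agent.MP_5baa61_gt.JA

open Set
open scoped Classical

namespace T2

theorem sq_mono (J : ℕ → ℕ → Cell) {G G' : Finset ℕ} (e : G ⊆ G') : sq J G ⊆ sq J G' :=
  fun _ hC => let ⟨l, k, h1, h2, h3⟩ := mem_sq.1 hC; mem_sq.2 ⟨l, k, e h1, e h2, h3⟩

theorem mem_skq {J : ℕ → ℕ → Cell} {G0 : Finset ℕ} {AA : Set (Finset ℕ)} {c : Finset Cell} :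
    c ∈ (skq J G0 AA).2 ↔ ∃ G, G ⊆ G0 ∧ G ∈ AA ∧ c = sq J G := by
  simp only [skq, Finset.mem_image, Finset.mem_filter, Finset.mem_powerset]
  exact ⟨fun ⟨G, ⟨h1, h2⟩, h3⟩ => ⟨G, h1, h2, h3.symm⟩,
    fun ⟨G, h1, h2, h3⟩ => ⟨G, ⟨h1, h2⟩, h3.symm⟩⟩

theorem mem_sq_of_ne (J : ℕ → ℕ → Cell) {G : Finset ℕ} {x y : ℕ} (hx : x ∈ G) (hy : y ∈ G)
    (h : x ≠ y) : J (min x y) (max x y) ∈ sq J G := by
  refine mem_sq.2 ⟨min x y, max x y, ?_, ?_, by omega, rfl⟩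
  · rcases min_choice x y with e | e <;> rw [e] <;> assumption
  · rcases max_choice x y with e | e <;> rw [e] <;> assumption

theorem sq_nonempty (J : ℕ → ℕ → Cell) {G : Finset ℕ} (h : 2 ≤ G.card) : (sq J G).Nonempty := by
  obtain ⟨x, hx, y, hy, hn⟩ := Finset.one_lt_card.1 h
  exact ⟨_, mem_sq_of_ne J hx hy hn⟩

theorem two_le_sq {J : ℕ → ℕ → Cell} (hJ : Grid J) {G : Finset ℕ} (h : 3 ≤ G.card) :
    2 ≤ (sq J G).card := by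
  obtain ⟨x, hx, y, hy, z, hz, h1, h2, h3⟩ := Finset.two_lt_card.1 h
  refine Finset.one_lt_card.2 ⟨_, mem_sq_of_ne J hx hy h1, _, mem_sq_of_ne J hx hz h2, fun e => ?_⟩
  have := hJ.inj (by omega) (by omega) e
  omega

theorem skq_le (J : ℕ → ℕ → Cell) (AA : Set (Finset ℕ)) {G G' : Finset ℕ} (e : G ⊆ G') :
    Le (skq J G AA) (skq J G' AA) :=
  ⟨sq_mono J e,
    fun _ hc => let ⟨F, h1, h2⟩ := mem_skq.1 hc; mem_skq.2 ⟨F, h1.trans e, h2⟩,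
    fun _ hc => let ⟨_, h1, _, h3⟩ := mem_skq.1 hc; h3 ▸ sq_mono J h1⟩

theorem skq_wf {J : ℕ → ℕ → Cell} (hJ : Grid J) {AA : Set (Finset ℕ)}
    (hA : ∀ G ∈ AA, 2 ≤ G.card) (G0 : Finset ℕ) : SkWf (skq J G0 AA) :=
  ⟨hJ.disj_pairs ∅ G0, fun _ hc => let ⟨G, h1, h2, h3⟩ := mem_skq.1 hc
    ⟨h3 ▸ sq_mono J h1, h3 ▸ sq_nonempty J (hA G h2)⟩⟩

theorem un_at (h1 : T2SStmt) (h2 : T2DStmt) {J : ℕ → ℕ → Cell} (hJ : Grid J) (a : ℕ) :
    ∀ l, T2At J a (Un a l)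
  | 0 => fun _ H hH _ hD => by
    obtain ⟨G, g1, g2⟩ := hD.2.2 H subset_rfl hH
    exact ⟨G, g2, sq J G, mem_skq.2 ⟨G, subset_rfl, g1, rfl⟩⟩
  | l + 1 => fun AA H hH ha hD => by
    obtain ⟨G1, g1, g2⟩ := h1 J a l hJ (un_at h1 h2 hJ a l) AA H hH ha hD
    obtain ⟨G2, g3, g4⟩ := h2 J a l hJ (un_at h1 h2 hJ a l) AA H hH ha hD
    refine ⟨G1 ∪ G2, ?_, g2.up (skq_le J AA Finset.subset_union_left),
      g4.up (skq_le J AA Finset.subset_union_right)⟩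
    rw [Finset.coe_union]
    exact union_subset g1 g3

/-- The endpoints of the long cells. -/
def uu (h : ℕ → ℕ) (l : ℕ) : ℕ → ℕ
  | 0 => l
  | i + 1 => max (uu h l i) (h (uu h l i)) + 1

theorem uu_lt (h : ℕ → ℕ) (l i : ℕ) : uu h l i < uu h l (i + 1) := by
  simp only [uu]; omega

theorem uu_big (h : ℕ → ℕ) (l i : ℕ) : h (uu h l i) < uu h l (i + 1) := by
  simp only [uu]; omega

theorem uu_mono (h : ℕ → ℕ) (l : ℕ) : StrictMono (uu h l) := strictMono_nat_of_lt_succ (uu_lt h l)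

theorem le_uu (h : ℕ → ℕ) (l i : ℕ) : l ≤ uu h l i := (uu_mono h l).monotone (Nat.zero_le i)

/-- The grid of long cells. -/
def gg (h : ℕ → ℕ) (l : ℕ) (i k : ℕ) : Cell := (uu h l (k * k + i), uu h l (k * k + i + 1))

theorem gg_grid (h : ℕ → ℕ) (l : ℕ) : Grid (gg h l) := by
  refine ⟨fun i k _ => ⟨uu_lt h l _, ?_⟩, fun i k i' k' h1 _ h3 => (uu_mono h l).monotone ?_⟩
  · exact ((Nat.le_mul_self k).trans (Nat.le_add_right _ i)).trans ((uu_mono h l).le_apply)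
  · rcases h3 with h3 | ⟨rfl, h3⟩
    · have h4 : (k + 1) * (k + 1) ≤ k' * k' := Nat.mul_le_mul h3 h3
      have h5 : (k + 1) * (k + 1) = k * k + 2 * k + 1 := by ring
      omega
    · omega

end T2

theorem t2 (h1 : T2SStmt) (h2 : T2DStmt) : T2Stmt := fun _ a l hJ AA H hH ha hD =>
  let ⟨G, g1, g2⟩ := T2.un_at h1 h2 hJ a l AA H hH ha hD
  ⟨G, g1, T2.skq_wf hJ hD.1 G, g2⟩

theorem t1 (h : T2Stmt) : T1Stmt := fun f l => by
  obtain ⟨G, -, g1, g2⟩ := h (T2.gg f l) l l (T2.gg_grid f l) {G | 3 ≤ G.card} (Ici l)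
    (Ici_infinite l) (fun _ hk => hk)
    ⟨fun G hG => Nat.le_of_succ_le hG, fun G hG G' e _ => le_trans hG (Finset.card_le_card e),
      fun H' _ hH' => let ⟨G, e1, e2⟩ := hH'.exists_subset_card_eq 3; ⟨G, e2.ge, e1⟩⟩
  refine ⟨_, g1, g2, fun C hC => ?_, fun c hc => ?_⟩
  · obtain ⟨i, k, -, -, -, rfl⟩ := mem_sq.1 hC
    exact ⟨T2.le_uu f l _, T2.uu_big f l _⟩
  · obtain ⟨G', -, e1, rfl⟩ := T2.mem_skq.1 hc
    exact T2.two_le_sq (T2.gg_grid f l) e1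

end Pool.Agent.MP_5baa61_gt.JA
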