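import Pool.Agent.MP_5baa61_gt.JA.Spec
import Mathlib.Order.Filter.Ultrafilter.Basic
import Mathlib.Order.Filter.Cofinite
import Mathlib.Order.Filter.AtTopBot.Basic
import Mathlib.Data.Fintype.Basic
import Mathlib.Data.Set.Finite.Powerset

/-! Ramsey for pairs, the splitting clause and compactness of acceptance. -/

namespace Pool.Agent.MP_5baa61_gt.JA

open Set Filter
open scoped Classical

namespace T2S

theorem hom (U : Ultrafilter ℕ) (hU : (U : Filter ℕ) ≤ cofinite) {H : Set ℕ} (hH : H ∈ U)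
    (r : ℕ → ℕ → Prop) (h : ∀ᶠ l in (U : Filter ℕ), ∀ᶠ k in (U : Filter ℕ), r l k) :
    ∃ H' ⊆ H, H'.Infinite ∧ ∀ l ∈ H', ∀ k ∈ H', l < k → r l k := by
  obtain ⟨f, h1, h2⟩ := exists_seq_of_forall_finset_exists
    (fun l => l ∈ H ∧ ∀ᶠ k in (U : Filter ℕ), r l k) (fun l k => l < k ∧ r l k) (fun s hs => by
      have a1 : ∀ᶠ k in (U : Filter ℕ), ∀ l ∈ s, l < k ∧ r l k :=
        (eventually_all_finset s).2 fun l hl =>
          (Filter.Eventually.filter_mono (hU.trans Nat.cofinite_eq_atTop.le)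
            (eventually_gt_atTop l)).and (hs l hl).2
      have a2 : ∀ᶠ k in (U : Filter ℕ), k ∈ H := hH
      exact ((a2.and h).and a1).exists)
  have h3 : StrictMono f := fun m n e => (h2 m n e).1
  refine ⟨range f, ?_, infinite_range_of_injective h3.injective, ?_⟩
  · rintro _ ⟨n, rfl⟩
    exact (h1 n).1
  · rintro _ ⟨m, rfl⟩ _ ⟨n, rfl⟩ e
    exact (h2 m n (h3.lt_iff_lt.1 e)).2

theorem sq_mono (J : ℕ → ℕ → Cell) {G G' : Finset ℕ} (h : G ⊆ G') : sq J G ⊆ sq J G' :=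
  fun _ hC => let ⟨l, k, h1, h2, h3⟩ := mem_sq.1 hC; mem_sq.2 ⟨l, k, h h1, h h2, h3⟩

theorem skq_le (J : ℕ → ℕ → Cell) (AA : Set (Finset ℕ)) {G G' : Finset ℕ} (h : G ⊆ G') :
    Le (skq J G AA) (skq J G' AA) := by
  refine ⟨sq_mono J h, Finset.image_subset_image (Finset.filter_subset_filter _
    (Finset.powerset_mono.2 h)), fun c hc => ?_⟩
  obtain ⟨G1, h1, rfl⟩ := Finset.mem_image.1 hc
  exact sq_mono J (Finset.mem_powerset.1 (Finset.mem_filter.1 h1).1)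

/-- The initial segments of a set. -/
noncomputable def seg (H : Set ℕ) (n : ℕ) : Finset ℕ := (Finset.range n).filter fun k => k ∈ H

theorem seg_sub (H : Set ℕ) (n : ℕ) : (seg H n : Set ℕ) ⊆ H :=
  fun _ hk => (Finset.mem_filter.1 hk).2

theorem ev_mem {H : Set ℕ} {k : ℕ} (hk : k ∈ H) :
    ∀ᶠ n in (hyperfilter ℕ : Filter ℕ), k ∈ seg H n :=
  Filter.Eventually.filter_mono (hyperfilter_le_cofinite.trans Nat.cofinite_eq_atTop.le)
    ((eventually_gt_atTop k).mono fun _ hn => Finset.mem_filter.2 ⟨Finset.mem_range.2 hn, hk⟩)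

theorem ev_sub {H : Set ℕ} {G : Finset ℕ} (hG : (G : Set ℕ) ⊆ H) :
    ∀ᶠ n in (hyperfilter ℕ : Filter ℕ), G ⊆ seg H n :=
  ((eventually_all_finset G).2 fun _ hk => ev_mem (hG hk)).mono fun _ hn => hn

end T2S

open T2S

theorem ram : RamStmt := by
  intro c H hH
  have hne : (cofinite ⊓ 𝓟 H).NeBot := hH.cofinite_inf_principal_neBot
  have h1 := Ultrafilter.of_le (cofinite ⊓ 𝓟 H)
  set U := Ultrafilter.of (cofinite ⊓ 𝓟 H)
  have h2 : (U : Filter ℕ) ≤ cofinite := h1.trans inf_le_left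
  have h3 : H ∈ U := le_principal_iff.1 (h1.trans inf_le_right)
  rcases U.em fun l => ∀ᶠ k in (U : Filter ℕ), c l k with h | h
  · obtain ⟨H', a1, a2, a3⟩ := hom U h2 h3 c h
    exact ⟨H', a1, a2, Or.inl a3⟩
  · obtain ⟨H', a1, a2, a3⟩ := hom U h2 h3 (fun l k => ¬ c l k)
      (h.mono fun _ hl => Ultrafilter.eventually_not.2 hl)
    exact ⟨H', a1, a2, Or.inr a3⟩

theorem t2s (h : RamStmt) : T2SStmt := by
  intro J a l _ hT AA H hH ha hD
  by_contra hn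
  have h1 : ∀ n, ∃ W1 : Finset Cell, ∀ s', Le s' (skq J (seg H n) AA) → Un a l s' →
      ¬ (s'.1 ⊆ W1 ∨ ∀ C ∈ s'.1, C ∉ W1) := fun n => by
    by_contra h2
    refine hn ⟨seg H n, seg_sub H n, fun W1 => ?_⟩
    by_contra h3
    exact h2 ⟨W1, fun s' a1 a2 a3 => h3 ⟨s', a1, a2, a3⟩⟩
  choose W hW using h1
  obtain ⟨H', a1, a2, a3⟩ :=
    h (fun l k => ∀ᶠ n in (hyperfilter ℕ : Filter ℕ), J l k ∈ W n) H hH
  obtain ⟨G0, b1, b2⟩ := hT AA H' a2 (fun k hk => ha k (a1 hk))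
    ⟨hD.1, fun G hG G' e e' => hD.2.1 G hG G' e (e'.trans a1),
      fun H'' e e' => hD.2.2 H'' (e.trans a1) e'⟩
  have b3 : ∀ᶠ n in (hyperfilter ℕ : Filter ℕ), sq J G0 ⊆ W n ∨ ∀ C ∈ sq J G0, C ∉ W n := by
    rcases a3 with a3 | a3
    · refine ((eventually_all_finset (sq J G0)).2 fun C hC => ?_).mono fun n hn => Or.inl hn
      obtain ⟨l', k, c1, c2, c3, rfl⟩ := mem_sq.1 hC
      exact a3 l' (b1 c1) k (b1 c2) c3
    · refine ((eventually_all_finset (sq J G0)).2 fun C hC => ?_).mono fun n hn => Or.inr hn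
      obtain ⟨l', k, c1, c2, c3, rfl⟩ := mem_sq.1 hC
      exact Ultrafilter.eventually_not.2 (a3 l' (b1 c1) k (b1 c2) c3)
  obtain ⟨n, c1, c2⟩ := (b3.and (ev_sub (b1.trans a1))).exists
  exact hW n _ (skq_le J AA c2) b2 c1

theorem cpt : CptStmt := by
  intro J a Y H DD hJ hW hA H' hH' hi
  by_contra hn
  have h1 : ∀ n, ∃ (G' : Finset ℕ) (f : Cell → Set Move), seg H' n ⊆ G' ∧ (G' : Set ℕ) ⊆ H ∧
      (∀ C ∈ sq J G', f C ∈ OU DD C) ∧ ¬ ∃ t ∈ Comp (sq J G') f, t ∈ Y := fun n => by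
    by_contra h2
    refine hn ⟨seg H' n, seg_sub H' n, fun G' a1 a2 f a3 => ?_⟩
    by_contra h3
    exact h2 ⟨G', f, a1, a2, a3, h3⟩
  choose G' F a1 a2 a3 a4 using h1
  have hw : ∀ l k, k ∈ H → l < k → ∀ o ∈ OU DD (J l k), ∅ ∈ o ∧ o ⊆ Mv (J l k) a :=
    fun l k hk hl o ⟨P, b1, b2⟩ => ((hW k hk).2 l hl P b1).2.2 o b2
  have h2 : ∀ C : Cell, ∃ o : Set Move, ∀ l k, l ∈ H' → k ∈ H' → l < k → C = J l k →
      o ∈ OU DD C ∧ ∀ᶠ n in (hyperfilter ℕ : Filter ℕ), F n C = o := fun C => by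
    by_cases hC : ∃ l k, l ∈ H' ∧ k ∈ H' ∧ l < k ∧ C = J l k
    · obtain ⟨l, k, b1, b2, b3, rfl⟩ := hC
      have b4 : (OU DD (J l k)).Finite :=
        (finite_mv (J l k) a).finite_subsets.subset fun o ho => (hw l k (hH' b2) b3 o ho).2
      obtain ⟨o, b5, b6⟩ := (Ultrafilter.eventually_exists_mem_iff (f := hyperfilter ℕ)
        (P := fun o n => F n (J l k) = o) b4).1 (((ev_mem b1).and (ev_mem b2)).mono fun n hn =>
          ⟨_, a3 n _ (mem_sq.2 ⟨l, k, a1 n hn.1, a1 n hn.2, b3, rfl⟩), rfl⟩)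
      exact ⟨o, fun _ _ _ _ _ _ => ⟨b5, b6⟩⟩
    · exact ⟨∅, fun l k b1 b2 b3 b4 => absurd ⟨l, k, b1, b2, b3, b4⟩ hC⟩
  choose f hf using h2
  obtain ⟨G, c1, t, c2, c3⟩ := hA H' hH' hi f fun k hk l hl e =>
    (hf _ l k (e.resolve_left (Finset.notMem_empty _)) hk hl rfl).1
  have c4 : ∀ᶠ n in (hyperfilter ℕ : Filter ℕ), ∀ C ∈ sq J G, F n C = f C :=
    (eventually_all_finset (sq J G)).2 fun C hC =>
      let ⟨l, k, d1, d2, d3, d4⟩ := mem_sq.1 hC; (hf C l k (c1 d1) (c1 d2) d3 d4).2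
  obtain ⟨n, d1, d2⟩ := (c4.and (ev_sub c1)).exists
  refine a4 n ⟨t, Comp.mono_cells (hJ.disj_pairs ∅ (G' n)) (sq_mono J (d2.trans (a1 n)))
    (fun C hC _ => ?_) (Comp.mono_fam (fun C hC => (d1 C hC).ge) c2), by simpa using c3⟩
  obtain ⟨l, k, -, e2, e3, rfl⟩ := mem_sq.1 hC
  exact (hw l k (a2 n e2) e3 _ (a3 n _ hC)).1

end Pool.Agent.MP_5baa61_gt.JA
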