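import Pool.Agent.MP_5baa61_gt.JA.Spec
import Mathlib.Data.Set.Card
import Mathlib.Order.Interval.Finset.Nat
import Mathlib.Order.Interval.Finset.Basic

/-! The accepting alternative yields states that meet the requirement. -/

namespace Pool.Agent.MP_5baa61_gt.JA

open Set
open scoped Classical

namespace TlkA

theorem inC_of_ins {W : Finset Cell} {C B : Cell} (h : Ins W C) (hB : B ∈ W) {e : ℕ}
    (he : inC B e) : inC C e :=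
  ⟨(h B hB).1.trans he.1, he.2.trans_le (h B hB).2⟩

/-- The offer of a leaf that a choice function determines. -/
def ofr (a : ℕ) (f : Cell × ℕ → ℕ) (B : Cell) : Set Move :=
  {t | t = ∅ ∨ ∃ r < a, t = {(f (B, r), r)}}

theorem tlp {a : ℕ} {X : Move → Prop} {u W : Finset Cell} {c' : Cell → Finset Cell}
    (f : Cell × ℕ → ℕ) (hc : ∀ C ∈ W, c' C ⊆ u ∧ Ins (c' C) C) {t : Move} (hX : X t)
    (ht : t ∈ Comp W fun C => Comp (c' C) (ofr a f)) :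
    ∃ t, X t ∧ ∃ g : ℕ × ℕ →₀ Cell, (∀ q ∈ t, g q ∈ u ∧ q.2 < a ∧ q.1 = f (g q, q.2)) ∧
      ∀ q ∈ t, ∀ q' ∈ t, g q = g q' → q = q' := by
  have key : ∀ q : ℕ × ℕ, ∃ B : Cell, q ∈ t → (B ∈ u ∧ q.2 < a ∧ q.1 = f (B, q.2)) ∧
      inC B q.1 ∧ ∀ q' ∈ t, inC B q'.1 → q = q' := by
    intro q
    by_cases hq : q ∈ t
    swap
    · exact ⟨0, fun h => absurd h hq⟩
    obtain ⟨C, hC, h1⟩ := ht.1 q hq
    have h2 := ht.2 C hC
    have h3 : q ∈ rs t C := mem_rs.2 ⟨hq, h1⟩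
    obtain ⟨B, hB, h4⟩ := h2.1 q h3
    have h5 : q ∈ rs (rs t C) B := mem_rs.2 ⟨h3, h4⟩
    rcases h2.2 B hB with h6 | ⟨r, hr, h6⟩
    · rw [h6] at h5
      exact absurd h5 (Finset.notMem_empty _)
    · have h7 : q = (f (B, r), r) := Finset.mem_singleton.1 (h6 ▸ h5)
      refine ⟨B, fun _ => ⟨⟨(hc C hC).1 hB, by rw [h7]; exact hr, by rw [h7]⟩, h4,
        fun q' hq' h8 => ?_⟩⟩
      have h9 : q' ∈ rs (rs t C) B :=
        mem_rs.2 ⟨mem_rs.2 ⟨hq', inC_of_ins (hc C hC).2 hB h8⟩, h8⟩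
      rw [h6] at h9
      exact h7.trans (Finset.mem_singleton.1 h9).symm
  choose g hg using key
  refine ⟨t, hX, Finsupp.onFinset t (fun q => if q ∈ t then g q else 0) fun q hq => ?_,
    fun q hq => ?_, fun q hq q' hq' h => ?_⟩
  · by_contra hn
    exact hq (if_neg hn)
  · simp only [Finsupp.onFinset_apply, if_pos hq]
    exact (hg q hq).1
  · simp only [Finsupp.onFinset_apply, if_pos hq, if_pos hq'] at h
    exact (hg q hq).2.2 q' hq' (h ▸ (hg q' hq').2.1)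

theorem mem_skq {J : ℕ → ℕ → Cell} {G0 : Finset ℕ} {AA : Set (Finset ℕ)} {u : Finset Cell}
    (h : u ∈ (skq J G0 AA).2) : ∃ G, G ⊆ G0 ∧ G ∈ AA ∧ sq J G = u := by
  obtain ⟨G, a3, a6⟩ := Finset.mem_image.1 h
  obtain ⟨a4, a5⟩ := Finset.mem_filter.1 a3
  exact ⟨G, Finset.mem_powerset.1 a4, a5, a6⟩

theorem two {G : Finset ℕ} (h : 2 ≤ G.card) : ∃ l k, l ∈ G ∧ k ∈ G ∧ l < k := by
  obtain ⟨x, hx, y, hy, hn⟩ := Finset.one_lt_card.1 h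
  rcases lt_or_gt_of_ne hn with h1 | h1
  · exact ⟨x, y, hx, hy, h1⟩
  · exact ⟨y, x, hy, hx, h1⟩

theorem select {lam : Lam} {a : ℕ} {J : ℕ → ℕ → Cell} {σ : ℕ → ℕ → Sta} {H : Set ℕ}
    {DD : Cell → Set Pos} (hG : Grid J) (hD : ∀ C, DD C ⊆ arD lam a J σ C)
    (hne : ∀ k ∈ H, ∀ l < k, (DD (J l k)).Nonempty) :
    ∃ τ : Cell → Sta, ∀ l k, l < k → k ∈ H → Sub (τ (J l k)) (σ l k) ∧
      Mod lam (J l k).1 k (τ (J l k)) ∧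
        (CompP (τ (J l k)).1 fun B => leaf a B (τ (J l k)).2) ∈ DD (J l k) := by
  have key : ∀ C : Cell, ∃ τ : Sta, ∀ l k, l < k → k ∈ H → C = J l k → Sub τ (σ l k) ∧
      Mod lam C.1 k τ ∧ (CompP τ.1 fun B => leaf a B τ.2) ∈ DD C := by
    intro C
    by_cases h : ∃ l k, l < k ∧ k ∈ H ∧ C = J l k
    · obtain ⟨l, k, h1, h2, h3⟩ := h
      obtain ⟨Q, hQ⟩ := hne k h2 l h1
      rw [← h3] at hQ
      obtain ⟨l', k', h4, h5, τ, h6, h7, h8⟩ := hD C hQ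
      refine ⟨τ, fun l1 k1 h9 _ h10 => ?_⟩
      obtain ⟨rfl, rfl⟩ := hG.inj h4 h9 (h5.symm.trans h10)
      exact ⟨h6, h7, h8 ▸ hQ⟩
    · exact ⟨σ 0 0, fun l k h1 h2 h3 => absurd ⟨l, k, h1, h2, h3⟩ h⟩
  choose τ hτ using key
  exact ⟨τ, fun l k h1 h2 => hτ _ l k h1 h2 rfl⟩

end TlkA

open TlkA in
theorem tlkA (h1 : CptStmt) (h2 : T2Stmt) (h3 : CmpStmt) : TlkAStmt := by
  intro lam a X J σ H DD hl hA hH hW hD hne hacc c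
  obtain ⟨τ, hτ⟩ := select hA.1 hD hne
  have hI : ∀ l k, l < k → k ∈ H → Ins (τ (J l k)).1.1 (J l k) := fun l k a1 a2 B hB =>
    (hA.2 l k a1).2 B ((hτ l k a1 a2).1.1.1 hB)
  let AA : Set (Finset ℕ) := {G | 2 ≤ G.card ∧ ∀ G' : Finset ℕ, G ⊆ G' → (G' : Set ℕ) ⊆ H →
    ∀ f : Cell → Set Move, (∀ C ∈ sq J G', f C ∈ OU DD C) →
      ∃ t ∈ Comp (sq J G') f, t ∈ {t | X t}}
  have hd : Dns AA (H \ Iio c) := by
    refine ⟨fun G hG => hG.1, fun G hG G' e _ => ⟨hG.1.trans (Finset.card_le_card e),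
      fun G1 e1 => hG.2 G1 (e.trans e1)⟩, fun H' e hi => ?_⟩
    obtain ⟨G, a1, a2⟩ := h1 J a _ H DD hA.1 hW hacc H' (e.trans sdiff_subset) hi
    obtain ⟨T, a3, a4⟩ := hi.exists_subset_card_eq 2
    refine ⟨G ∪ T, ⟨a4 ▸ Finset.card_le_card Finset.subset_union_right,
      fun G1 e1 => a2 G1 (Finset.subset_union_left.trans e1)⟩, ?_⟩
    rw [Finset.coe_union]
    exact union_subset a1 a3
  obtain ⟨G0, b1, b2, b3⟩ := h2 J c c hA.1 AA (H \ Iio c) (hH.sdiff (finite_Iio c))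
    (fun k hk => not_lt.1 hk.2) hd
  obtain ⟨hM, hU, hE⟩ := h3 lam c c (skq J G0 AA) τ hl b2 b3 (by
    intro C hC
    obtain ⟨l, k, -, a2, a3, rfl⟩ := mem_sq.1 hC
    have a4 : c ≤ k := not_lt.1 (b1 a2).2
    exact ⟨a4.trans (hA.1.1 l k a3).2, (hτ l k a3 (b1 a2).1).2.1.both hl le_rfl a4,
      hI l k a3 (b1 a2).1⟩)
  have hU' : ∀ u ∈ (cmpS (skq J G0 AA) τ).1.2, ∃ G ⊆ G0, G ∈ AA ∧
      ∀ C ∈ sq J G, ∃ c' ∈ (τ C).1.2, c' ⊆ u := by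
    intro u hu
    obtain ⟨cc, a1, a2, -⟩ := hU u hu
    obtain ⟨G, a4, a5, rfl⟩ := mem_skq a1
    exact ⟨G, a4, a5, a2⟩
  have hin : ∀ l k, l < k → k ∈ H → ∀ c' ∈ (τ (J l k)).1.2, c' ⊆ (τ (J l k)).1.1 :=
    fun l k a1 a2 => (hτ l k a1 a2).1.1.2.2
  refine ⟨cmpS (skq J G0 AA) τ, hM, fun u hu f hf => ?_, fun e he => ?_, fun u hu => ?_⟩
  · obtain ⟨G, a1, a2, a3⟩ := hU' u hu
    choose! c' a4 a5 using a3
    have a6 : ∀ C ∈ sq J G, c' C ⊆ u ∧ Ins (c' C) C := by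
      intro C hC
      obtain ⟨l, k, -, d2, d3, rfl⟩ := mem_sq.1 hC
      exact ⟨a5 _ hC, fun B hB =>
        hI l k d3 (b1 (a1 d2)).1 B (hin l k d3 (b1 (a1 d2)).1 _ (a4 _ hC) hB)⟩
    obtain ⟨t, a7, a8⟩ := a2.2 G subset_rfl (fun k hk => (b1 (a1 hk)).1)
      (fun C => Comp (c' C) (ofr a f)) (by
        intro C hC
        obtain ⟨l, k, d1, d2, d3, rfl⟩ := mem_sq.1 hC
        refine ⟨_, (hτ l k d3 (b1 (a1 d2)).1).2.2, c' _, a4 _ hC, ofr a f, fun B hB => ?_, rfl⟩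
        refine ⟨fun r => f (B, r), fun r hr => ?_, rfl⟩
        have d4 := hf B (a5 _ hC hB) r hr
        exact ⟨(hE _ (mem_sq.2 ⟨l, k, a1 d1, a1 d2, d3, rfl⟩) _
          (inC_of_ins (a6 _ hC).2 hB d4.2)).1 d4.1, d4.2⟩)
    exact tlp f a6 a8 a7
  · obtain ⟨C, hC, a1⟩ := Finset.mem_biUnion.1 he
    obtain ⟨l, k, -, a2, a3, rfl⟩ := mem_sq.1 hC
    exact ⟨l, k, a3, (hτ l k a3 (b1 a2).1).1.2 a1⟩
  · obtain ⟨G, a1, a2, a3⟩ := hU' u hu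
    obtain ⟨l, k, d1, d2, d3⟩ := two a2.1
    have d4 := (b1 (a1 d2)).1
    have d5 : J l k ∈ (skq J G0 AA).1 := mem_sq.2 ⟨l, k, a1 d1, a1 d2, d3, rfl⟩
    obtain ⟨c', a4, a5⟩ := a3 _ (mem_sq.2 ⟨l, k, d1, d2, d3, rfl⟩)
    refine ⟨l, k, d3, not_lt.1 (b1 (a1 d2)).2, c', (hτ l k d3 d4).1.1.2.1 a4, a5,
      fun B hB => ?_⟩
    have d6 := hin l k d3 d4 c' a4 hB
    refine ⟨?_, fun e he hi =>
      (hτ l k d3 d4).1.2 ((hE _ d5 e (inC_of_ins (hI l k d3 d4) d6 hi)).1 he)⟩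
    obtain ⟨e, d7, d8⟩ := hl.ne _ _ (hl.le ((hτ l k d3 d4).2.1.2.2.1 B d6).2 (by omega))
    exact ⟨e, (hE _ d5 e (inC_of_ins (hI l k d3 d4) d6 d8)).2 d7, d8⟩

end Pool.Agent.MP_5baa61_gt.JA
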