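import Pool.Agent.MP_5baa61_gt.JA.Spec
import Mathlib.Data.Finset.Max

/-! Deciding all short states at once along a finite family of cells. -/

namespace Pool.Agent.MP_5baa61_gt.JA

open Set
open scoped Classical

namespace Tuple

/-- Finitely many questions are decided by a deep family. -/
theorem many (Y : Move → Set Move) (d : ℕ) (S : Finset Move) : ∀ D : Set Pos,
    Deep (d + S.card) D → ∃ D2, D2 ⊆ D ∧ Deep d D2 ∧
      ∀ s ∈ S, (∀ P ∈ D2, Free (Y s) P) ∨ ∀ P ∈ D2, Tl (Y s) P := by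
  induction S using Finset.induction_on with
  | empty => exact fun D h => ⟨D, subset_rfl, h, fun _ hs => absurd hs (Finset.notMem_empty _)⟩
  | insert s S hs ih =>
    intro D h
    rw [Finset.card_insert_of_notMem hs, ← Nat.add_assoc] at h
    rcases h (Y s) with h1 | h1
    · obtain ⟨D2, h2, h3, h4⟩ := ih _ h1
      refine ⟨D2, fun P hP => (h2 hP).1, h3, fun u hu => ?_⟩
      rcases Finset.mem_insert.1 hu with rfl | hu
      · exact Or.inl fun P hP => (h2 hP).2
      · exact h4 u hu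
    · obtain ⟨D2, h2, h3, h4⟩ := ih _ h1
      refine ⟨D2, fun P hP => (h2 hP).1, h3, fun u hu => ?_⟩
      rcases Finset.mem_insert.1 hu with rfl | hu
      · exact Or.inr fun P hP => (h2 hP).2
      · exact h4 u hu

/-- The moves below `b` with roles below `b` lie in a finite set of size `rr b`. -/
theorem states (b : ℕ) : ∃ S : Finset Move, S.card = rr b ∧
    ∀ a β, a ≤ b → β ≤ b → ∀ s ∈ Mv (0, β) a, s ∈ S := by
  refine ⟨(Finset.range b ×ˢ Finset.range b).powerset, ?_, fun a β ha hβ s hs => ?_⟩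
  · rw [Finset.card_powerset, Finset.card_product, Finset.card_range, rr]
  · refine Finset.mem_powerset.2 fun p hp => Finset.mem_product.2 ⟨?_, ?_⟩
    · exact Finset.mem_range.2 (lt_of_lt_of_le (hs p hp).1.2 hβ)
    · exact Finset.mem_range.2 (lt_of_lt_of_le (hs p hp).2 ha)

/-- Splitting a composite move into the part in one cell and the rest. -/
theorem split {W : Finset Cell} (hd : Disj W) {J : Cell} (hJ : J ∈ W) {F F' : Cell → Set Move}
    (hF : ∀ C ∈ W.erase J, F C = F' C) {t : Move} (ht : t ∈ Comp W F) :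
    ∃ t' ∈ Comp (W.erase J) F', t = rs t J ∪ t' := by
  refine ⟨t.filter fun p => ¬ inC J p.1, ⟨fun p hp => ?_, fun C hC => ?_⟩, ?_⟩
  · obtain ⟨h1, h2⟩ := Finset.mem_filter.1 hp
    obtain ⟨C, h3, h4⟩ := ht.1 p h1
    exact ⟨C, Finset.mem_erase.2 ⟨fun e => h2 (e ▸ h4), h3⟩, h4⟩
  · obtain ⟨h1, h2⟩ := Finset.mem_erase.1 hC
    have e : rs (t.filter fun p => ¬ inC J p.1) C = rs t C := by
      ext p
      simp only [mem_rs, Finset.mem_filter]
      exact ⟨fun h => ⟨h.1.1, h.2⟩, fun h => ⟨⟨h.1, fun h3 => h1 (hd.eq h2 hJ h.2 h3)⟩, h.2⟩⟩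
    rw [e, ← hF C hC]
    exact ht.2 C h2
  · ext p
    simp only [mem_rs, Finset.mem_union, Finset.mem_filter]
    tauto

/-- Joining a move in one cell with a composite move over the other cells. -/
theorem join {W : Finset Cell} (hd : Disj W) {J : Cell} (hJ : J ∈ W) {F : Cell → Set Move}
    {t t' : Move} (h1 : t ∈ F J) (h2 : ∀ p ∈ t, inC J p.1) (h3 : t' ∈ Comp (W.erase J) F) :
    t ∪ t' ∈ Comp W F := by
  refine ⟨fun p hp => ?_, fun C hC => ?_⟩
  · rcases Finset.mem_union.1 hp with hp | hp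
    · exact ⟨J, hJ, h2 p hp⟩
    · obtain ⟨C, h4, h5⟩ := h3.1 p hp
      exact ⟨C, Finset.mem_of_mem_erase h4, h5⟩
  · rw [rs_union]
    by_cases e : C = J
    · subst e
      rw [rs_eq_self h2, rs_eq_empty (t := t') fun p hp h4 => ?_, Finset.union_empty]
      · exact h1
      · obtain ⟨C', h5, h6⟩ := h3.1 p hp
        obtain ⟨h7, h8⟩ := Finset.mem_erase.1 h5
        exact h7 (hd.eq h8 hC h6 h4)
    · rw [rs_eq_empty (t := t) fun p hp h4 => e (hd.eq hC hJ h4 (h2 p hp)), Finset.empty_union]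
      exact h3.2 C (Finset.mem_erase.2 ⟨e, hC⟩)

theorem main (a : ℕ) (n : Cell → ℕ) (DD : Cell → Set Pos) (Y : Set Move) : ∀ (m β : ℕ)
    (W : Finset Cell), W.card = m → Disj W →
    (∀ J ∈ W, a ≤ J.1 ∧ β ≤ J.1 ∧ (∀ P ∈ DD J, Wf J a P) ∧ Deep ((n J + 1) * rr J.1) (DD J)) →
    ∃ DD' : Cell → Set Pos, (∀ J, DD' J ⊆ DD J) ∧ (∀ J, J ∉ W → DD' J = DD J) ∧
      (∀ J ∈ W, Deep (n J * rr J.1) (DD' J)) ∧
      ∀ s ∈ Mv (0, β) a, (∀ t ∈ Comp W (MU DD'), s ∪ t ∉ Y) ∨
        ∀ f : Cell → Set Move, (∀ J ∈ W, f J ∈ OU DD' J) → ∃ t ∈ Comp W f, s ∪ t ∈ Y := by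
  intro m
  induction m with
  | zero =>
    intro β W hW _ _
    obtain rfl := Finset.card_eq_zero.1 hW
    refine ⟨DD, fun _ => subset_rfl, fun _ _ => rfl,
      fun _ hJ => absurd hJ (Finset.notMem_empty _), fun s _ => ?_⟩
    by_cases hs : s ∈ Y
    · refine Or.inr fun f _ => ⟨∅, empty_mem_comp fun _ hJ => absurd hJ (Finset.notMem_empty _), ?_⟩
      rwa [Finset.union_empty]
    · refine Or.inl fun t ht => ?_
      have e : t = ∅ := Finset.eq_empty_of_forall_notMem fun p hp =>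
        let ⟨_, h1, _⟩ := ht.1 p hp; absurd h1 (Finset.notMem_empty _)
      rwa [e, Finset.union_empty]
  | succ m ih =>
    intro β W hW hd h
    obtain ⟨J, hJ, hmin⟩ := W.exists_min_image (fun C => C.1) (Finset.card_pos.1 (by omega))
    obtain ⟨ha, hβ, hwf, hdeep⟩ := h J hJ
    have hJ12 := hd.1 J hJ
    obtain ⟨DD1, e1, e2, e3, e4⟩ := ih J.2 (W.erase J)
      (by rw [Finset.card_erase_of_mem hJ]; omega) (hd.subset (Finset.erase_subset J W))
      fun C hC => by
        obtain ⟨h1, h2⟩ := Finset.mem_erase.1 hC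
        refine ⟨(h C h2).1, ?_, (h C h2).2.2⟩
        have h3 := hd.2 C h2 J hJ h1
        have h4 := hmin C h2
        have h5 := hd.1 C h2
        omega
    obtain ⟨S, hS, hS'⟩ := states J.1
    obtain ⟨D2, g1, g2, g3⟩ := many (fun s => {t | ∀ f : Cell → Set Move,
      (∀ C ∈ W.erase J, f C ∈ OU DD1 C) → ∃ t' ∈ Comp (W.erase J) f, (s ∪ t) ∪ t' ∈ Y})
      (n J * rr J.1) S (DD J) (by rw [hS, ← Nat.succ_mul]; exact hdeep)
    have u1 : Function.update DD1 J D2 J = D2 := Function.update_self ..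
    have u2 : ∀ C, C ≠ J → Function.update DD1 J D2 C = DD1 C := fun C hC =>
      Function.update_of_ne hC ..
    refine ⟨Function.update DD1 J D2, fun C => ?_, fun C hC => ?_, fun C hC => ?_, fun s hs => ?_⟩
    · by_cases e : C = J
      · rw [e, u1]; exact g1
      · rw [u2 C e]; exact e1 C
    · rw [u2 C fun e => hC (e ▸ hJ)]
      exact e2 C fun h1 => hC (Finset.mem_of_mem_erase h1)
    · by_cases e : C = J
      · rw [e, u1]; exact g2
      · rw [u2 C e]; exact e3 C (Finset.mem_erase.2 ⟨e, hC⟩)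
    · rcases g3 s (hS' a β ha hβ s hs) with g4 | g4
      · refine Or.inl fun t ht => ?_
        obtain ⟨P, hP, h1⟩ := ht.2 J hJ
        rw [u1] at hP
        have h2 : s ∪ rs t J ∈ Mv (0, J.2) a := fun p hp => by
          rcases Finset.mem_union.1 hp with hp | hp
          · exact ⟨⟨Nat.zero_le _, lt_of_lt_of_le (hs p hp).1.2 (hβ.trans hJ12.le)⟩, (hs p hp).2⟩
          · have h3 := (hwf P (g1 hP)).2.1 h1 p hp
            exact ⟨⟨Nat.zero_le _, h3.1.2⟩, h3.2⟩
        obtain ⟨t', h3, h4⟩ := split (F' := MU DD1) hd hJ (fun C hC => by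
          unfold MU; rw [u2 C (Finset.mem_erase.1 hC).1]) ht
        rw [h4, ← Finset.union_assoc]
        exact (e4 _ h2).resolve_right (g4 P hP _ h1) t' h3
      · refine Or.inr fun f hf => ?_
        obtain ⟨P, hP, h1⟩ := hf J hJ
        rw [u1] at hP
        obtain ⟨t, h2, h3⟩ := g4 P hP _ h1
        obtain ⟨t', h4, h5⟩ := h3 f fun C hC => by
          have h6 := hf C (Finset.mem_of_mem_erase hC)
          unfold OU at h6 ⊢
          rwa [u2 C (Finset.mem_erase.1 hC).1] at h6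
        refine ⟨t ∪ t', join hd hJ h2 (fun p hp => ?_) h4, ?_⟩
        · exact (((hwf P (g1 hP)).2.2 _ h1).2 h2 p hp).1
        · rwa [← Finset.union_assoc]

end Tuple

theorem tuple : TupleStmt := fun a β n W DD Y hd h => Tuple.main a n DD Y _ β W rfl hd h

end Pool.Agent.MP_5baa61_gt.JA
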