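import Pool.Agent.MP_5baa61_gt.JA.Spec

/-! Composition of skeletons keeps the universal norm. -/

namespace Pool.Agent.MP_5baa61_gt.JA

open Set
open scoped Classical

namespace U5

theorem mem1 {s : Sk} {g : Cell → Sk} {C : Cell} : C ∈ (cmp s g).1 ↔ ∃ J ∈ s.1, C ∈ (g J).1 :=
  Finset.mem_biUnion

theorem mem2 {s : Sk} {g : Cell → Sk} {u : Finset Cell} : u ∈ (cmp s g).2 ↔ u ⊆ (cmp s g).1 ∧
    ∃ c ∈ s.2, ∃ h : Cell → Finset Cell, (∀ J ∈ c, h J ∈ (g J).2) ∧ u = c.biUnion h := by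
  simp only [cmp, Finset.mem_filter, Finset.mem_powerset]

theorem ins_in {W : Finset Cell} {J C : Cell} (h : Ins W J) (hC : C ∈ W) {e : ℕ} (he : inC C e) :
    inC J e := ⟨(h C hC).1.trans he.1, he.2.trans_le (h C hC).2⟩

theorem ins_sub {W W' : Finset Cell} {J : Cell} (h : Ins W J) (e : W' ⊆ W) : Ins W' J :=
  fun C hC => h C (e hC)

theorem wf_cmp {s : Sk} {g : Cell → Sk} (hs : SkWf s)
    (hg : ∀ J ∈ s.1, SkWf (g J) ∧ Ins (g J).1 J) : SkWf (cmp s g) := by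
  refine ⟨⟨fun C hC => ?_, fun C hC C' hC' hn => ?_⟩, fun u hu => ?_⟩
  · obtain ⟨J, h1, h2⟩ := mem1.1 hC
    exact (hg J h1).1.1.1 C h2
  · obtain ⟨J, h1, h2⟩ := mem1.1 hC
    obtain ⟨J', h3, h4⟩ := mem1.1 hC'
    by_cases e : J = J'
    · subst e
      exact (hg J h1).1.1.2 C h2 C' h4 hn
    · have a1 := (hg J h1).2 C h2
      have a2 := (hg J' h3).2 C' h4
      rcases hs.1.2 J h1 J' h3 e with h5 | h5 <;> omega
  · obtain ⟨h1, c, hc, h, h2, rfl⟩ := mem2.1 hu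
    obtain ⟨J, hJ⟩ := (hs.2 c hc).2
    obtain ⟨C, hC⟩ := ((hg J ((hs.2 c hc).1 hJ)).1.2 _ (h2 J hJ)).2
    exact ⟨h1, C, Finset.mem_biUnion.2 ⟨J, hJ, hC⟩⟩

theorem le_cmp {s s2 : Sk} {g g2 : Cell → Sk} (e : Le s2 s) (hg : ∀ J ∈ s2.1, Le (g2 J) (g J)) :
    Le (cmp s2 g2) (cmp s g) := by
  have h0 : (cmp s2 g2).1 ⊆ (cmp s g).1 := fun C hC =>
    let ⟨J, h1, h2⟩ := mem1.1 hC; mem1.2 ⟨J, e.1 h1, (hg J h1).1 h2⟩
  refine ⟨h0, fun u hu => ?_, fun u hu => (mem2.1 hu).1⟩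
  obtain ⟨h1, c, hc, h, h2, h3⟩ := mem2.1 hu
  exact mem2.2 ⟨h1.trans h0, c, e.2.1 hc, h, fun J hJ => (hg J (e.2.2 c hc hJ)).2.1 (h2 J hJ), h3⟩

theorem rs_rs {W : Finset Cell} {J C : Cell} (h : Ins W J) (hC : C ∈ W) (t : Move) :
    rs (rs t J) C = rs t C := by
  ext p
  simp only [mem_rs]
  exact ⟨fun h1 => ⟨h1.1.1, h1.2⟩, fun h1 => ⟨⟨h1.1, ins_in h hC h1.2⟩, h1.2⟩⟩

theorem assoc {c : Finset Cell} {h : Cell → Finset Cell} (hd : Disj c) (hi : ∀ J ∈ c, Ins (h J) J)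
    (F : Cell → Set Move) : Comp (c.biUnion h) F = Comp c fun J => Comp (h J) F := by
  ext t
  refine ⟨fun ht => ⟨fun p hp => ?_, fun J hJ => ⟨fun p hp => ?_, fun C hC => ?_⟩⟩,
    fun ht => ⟨fun p hp => ?_, fun C hC => ?_⟩⟩
  · obtain ⟨C, h1, h2⟩ := ht.1 p hp
    obtain ⟨J, h3, h4⟩ := Finset.mem_biUnion.1 h1
    exact ⟨J, h3, ins_in (hi J h3) h4 h2⟩
  · obtain ⟨C, h1, h2⟩ := ht.1 p (mem_rs.1 hp).1
    obtain ⟨J', h3, h4⟩ := Finset.mem_biUnion.1 h1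
    obtain rfl := hd.eq hJ h3 (mem_rs.1 hp).2 (ins_in (hi J' h3) h4 h2)
    exact ⟨C, h4, h2⟩
  · rw [rs_rs (hi J hJ) hC]
    exact ht.2 C (Finset.mem_biUnion.2 ⟨J, hJ, hC⟩)
  · obtain ⟨J, h1, h2⟩ := ht.1 p hp
    obtain ⟨C, h3, h4⟩ := (ht.2 J h1).1 p (mem_rs.2 ⟨hp, h2⟩)
    exact ⟨C, Finset.mem_biUnion.2 ⟨J, h1, h3⟩, h4⟩
  · obtain ⟨J, h1, h2⟩ := Finset.mem_biUnion.1 hC
    rw [← rs_rs (hi J h1) h2]
    exact (ht.2 J h1).2 C h2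

theorem comp_mv {W : Finset Cell} {J : Cell} {a : ℕ} {F : Cell → Set Move} (hi : Ins W J)
    (hF : ∀ C ∈ W, F C ⊆ Mv C a) : Comp W F ⊆ Mv J a := fun _ ht p hp =>
  let ⟨C, h1, h2⟩ := ht.1 p hp
  ⟨ins_in hi h1 h2, (hF C h1 (ht.2 C h1) p (mem_rs.2 ⟨hp, h2⟩)).2⟩

theorem wf_comp {s : Sk} {J : Cell} {a : ℕ} {P : Cell → Pos} (hi : Ins s.1 J)
    (hs : ∀ c ∈ s.2, c ⊆ s.1) (hP : ∀ C ∈ s.1, Wf C a (P C)) : Wf J a (CompP s P) := by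
  refine ⟨empty_mem_comp fun C hC => (hP C hC).1, comp_mv hi fun C hC => (hP C hC).2.1, ?_⟩
  rintro _ ⟨c, hc, f, hf, rfl⟩
  exact ⟨empty_mem_comp fun C hC => ((hP C (hs c hc hC)).2.2 _ (hf C hC)).1,
    comp_mv (ins_sub hi (hs c hc)) fun C hC => ((hP C (hs c hc hC)).2.2 _ (hf C hC)).2⟩

theorem merge {s : Sk} {g : Cell → Sk} (hs : SkWf s) (hg : ∀ J ∈ s.1, SkWf (g J) ∧ Ins (g J).1 J)
    (P : Cell → Cell → Pos) : ∃ P' : Cell → Pos, ∀ J ∈ s.1, ∀ C ∈ (g J).1, P' C = P J C := by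
  refine ⟨fun C => if h : ∃ J ∈ s.1, C ∈ (g J).1 then P h.choose C else P C C, fun J hJ C hC => ?_⟩
  have h : ∃ J ∈ s.1, C ∈ (g J).1 := ⟨J, hJ, hC⟩
  have h1 : inC C C.1 := ⟨le_rfl, (hg J hJ).1.1.1 C hC⟩
  have h2 := hs.1.eq h.choose_spec.1 hJ (ins_in (hg _ h.choose_spec.1).2 h.choose_spec.2 h1)
    (ins_in (hg J hJ).2 hC h1)
  simp only [dif_pos h, h2]

theorem bet {s : Sk} {g : Cell → Sk} (hs : SkWf s) (hg : ∀ J ∈ s.1, SkWf (g J) ∧ Ins (g J).1 J)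
    {P : Cell → Cell → Pos} {P' Q : Cell → Pos} (hP : ∀ J ∈ s.1, ∀ C ∈ (g J).1, P' C = P J C)
    (hQ : ∀ J ∈ s.1, Q J = CompP (g J) (P J)) : Bet (CompP (cmp s g) P') (CompP s Q) := by
  refine ⟨fun t ht => ?_, ?_⟩
  · have h1 : t ∈ Comp (s.1.biUnion fun J => (g J).1) fun C => (P' C).1 := ht
    rw [assoc hs.1 fun J hJ => (hg J hJ).2] at h1
    refine Comp.mono_fam (fun J hJ => ?_) h1
    rw [hQ J hJ]
    exact Comp.mono_fam fun C hC => by rw [hP J hJ C hC]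
  · rintro _ ⟨u, hu, f, hf, rfl⟩
    obtain ⟨-, c, hc, h, h2, rfl⟩ := mem2.1 hu
    have h3 := (hs.2 c hc).1
    have h4 : ∀ J ∈ c, h J ⊆ (g J).1 := fun J hJ => ((hg J (h3 hJ)).1.2 _ (h2 J hJ)).1
    refine ⟨Comp c fun J => Comp (h J) f, ⟨c, hc, _, fun J hJ => ?_, rfl⟩, ?_⟩
    · rw [hQ J (h3 hJ)]
      refine ⟨h J, h2 J hJ, f, fun C hC => ?_, rfl⟩
      rw [← hP J (h3 hJ) C (h4 J hJ hC)]
      exact hf C (Finset.mem_biUnion.2 ⟨J, hJ, hC⟩)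
    · rw [assoc (hs.1.subset h3) fun J hJ => ins_sub (hg J (h3 hJ)).2 (h4 J hJ)]

theorem un_cmp (a : ℕ) : ∀ (l : ℕ) (s : Sk) (g : Cell → Sk), SkWf s → Un a l s →
    (∀ J ∈ s.1, a ≤ J.1 ∧ SkWf (g J) ∧ Ins (g J).1 J ∧ Un J.1 l (g J)) → Un a l (cmp s g)
  | 0, s, g, hs, ⟨c, hc⟩, hg => by
    have h1 : ∀ J ∈ s.1, ∃ u, u ∈ (g J).2 := fun J hJ => (hg J hJ).2.2.2
    choose! h hh using h1
    have h3 := (hs.2 c hc).1
    refine ⟨c.biUnion h, mem2.2 ⟨fun C hC => ?_, c, hc, h, fun J hJ => hh J (h3 hJ), rfl⟩⟩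
    obtain ⟨J, h4, h5⟩ := Finset.mem_biUnion.1 hC
    exact mem1.2 ⟨J, h3 h4, ((hg J (h3 h4)).2.1.2 _ (hh J (h3 h4))).1 h5⟩
  | l + 1, s, g, hs, hu, hg => by
    have key : ∀ (s2 : Sk) (g2 : Cell → Sk), Le s2 s → Un a l s2 →
        (∀ J ∈ s2.1, Le (g2 J) (g J) ∧ Un J.1 l (g2 J)) →
        (∀ J ∈ s2.1, SkWf (g2 J) ∧ Ins (g2 J).1 J) ∧ Le (cmp s2 g2) (cmp s g) ∧
          Un a l (cmp s2 g2) := fun s2 g2 e h2 h3 => by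
      have h4 : ∀ J ∈ s2.1, SkWf (g2 J) ∧ Ins (g2 J).1 J := fun J hJ =>
        ⟨(hg J (e.1 hJ)).2.1.of_le (h3 J hJ).1, ins_sub (hg J (e.1 hJ)).2.2.1 (h3 J hJ).1.1⟩
      exact ⟨h4, le_cmp e fun J hJ => (h3 J hJ).1, un_cmp a l s2 g2 (hs.of_le e) h2 fun J hJ =>
        ⟨(hg J (e.1 hJ)).1, (h4 J hJ).1, (h4 J hJ).2, (h3 J hJ).2⟩⟩
    refine ⟨fun W1 => ?_, fun DD hD => ?_⟩
    · have h1 : ∀ J ∈ s.1, ∃ s', Le s' (g J) ∧ Un J.1 l s' ∧ (s'.1 ⊆ W1 ∨ ∀ C ∈ s'.1, C ∉ W1) :=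
        fun J hJ => (hg J hJ).2.2.2.1 W1
      choose! g2 h2 h3 h4 using h1
      obtain ⟨s2, e, h5, h6⟩ := hu.1 (s.1.filter fun J => (g2 J).1 ⊆ W1)
      obtain ⟨-, h7, h8⟩ := key s2 g2 e h5 fun J hJ => ⟨h2 J (e.1 hJ), h3 J (e.1 hJ)⟩
      refine ⟨_, h7, h8, h6.imp (fun h C hC => ?_) fun h C hC => ?_⟩
      · obtain ⟨J, h9, h10⟩ := mem1.1 hC
        exact (Finset.mem_filter.1 (h h9)).2 h10
      · obtain ⟨J, h9, h10⟩ := mem1.1 hC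
        exact (h4 J (e.1 h9)).resolve_left
          (fun h11 => h J h9 (Finset.mem_filter.2 ⟨e.1 h9, h11⟩)) C h10
    · have h1 := hu.2 (fun J => Fam (Un J.1 l) (g J) DD) fun J hJ => ⟨?_,
        (hg J hJ).2.2.2.2 DD fun C hC => ⟨fun P hP =>
          ((hD C (mem1.2 ⟨J, hJ, hC⟩)).1 P hP).mono (hg J hJ).1, (hD C (mem1.2 ⟨J, hJ, hC⟩)).2⟩⟩
      · refine h1.transfer ?_
        rintro _ ⟨s2, e, h2, Q, h3, rfl⟩
        have h4 : ∀ J ∈ s2.1, ∃ s', Le s' (g J) ∧ Un J.1 l s' ∧ ∃ P : Cell → Pos,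
            (∀ C ∈ s'.1, P C ∈ DD C) ∧ Q J = CompP s' P := h3
        choose! g2 h5 h6 P h7 h8 using h4
        obtain ⟨h9, h10, h11⟩ := key s2 g2 e h2 fun J hJ => ⟨h5 J hJ, h6 J hJ⟩
        obtain ⟨P', h12⟩ := merge (hs.of_le e) h9 P
        refine ⟨_, ⟨_, h10, h11, P', fun C hC => ?_, rfl⟩, bet (hs.of_le e) h9 h12 h8⟩
        obtain ⟨J, h13, h14⟩ := mem1.1 hC
        rw [h12 J h13 C h14]
        exact h7 J h13 C h14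
      · rintro _ ⟨s', e, -, P, h2, rfl⟩
        exact wf_comp (ins_sub (hg J hJ).2.2.1 e.1) e.2.2 fun C hC =>
          (hD C (mem1.2 ⟨J, hJ, e.1 hC⟩)).1 _ (h2 C hC)

end U5

theorem u5 : U5Stmt := fun a l s g hs hu hg =>
  ⟨U5.wf_cmp hs fun J hJ => ⟨(hg J hJ).2.1, (hg J hJ).2.2.1⟩, U5.un_cmp a l s g hs hu hg⟩

theorem u7 (h : U5Stmt) : U7Stmt := fun a l s φ hs hu hφ => by
  have h1 := h a l s (fun J => ({φ J}, {{φ J}})) hs hu fun J hJ => by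
    obtain ⟨a1, a2, a3, a4⟩ := hφ J hJ
    refine ⟨a1, ⟨⟨fun C hC => Finset.mem_singleton.1 hC ▸ a3, fun C hC C' hC' hn =>
      absurd ((Finset.mem_singleton.1 hC).trans (Finset.mem_singleton.1 hC').symm) hn⟩,
      fun c hc => ?_⟩, fun C hC => Finset.mem_singleton.1 hC ▸ ⟨a2, a4⟩, un_single a2 l⟩
    obtain rfl := Finset.mem_singleton.1 hc
    exact ⟨subset_rfl, Finset.singleton_nonempty _⟩
  have h2 : (cmp s fun J => ({φ J}, {{φ J}})).1 = s.1.image φ := Finset.biUnion_singleton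
  have h3 : (cmp s fun J => ({φ J}, {{φ J}})).2 = s.2.image fun c => c.image φ := by
    ext u
    rw [U5.mem2, h2, Finset.mem_image]
    refine ⟨?_, ?_⟩
    · rintro ⟨-, c, hc, f, hf, rfl⟩
      refine ⟨c, hc, ?_⟩
      rw [← Finset.biUnion_singleton]
      exact Finset.biUnion_congr rfl fun J hJ => (Finset.mem_singleton.1 (hf J hJ)).symm
    · rintro ⟨c, hc, rfl⟩
      exact ⟨Finset.image_subset_image (hs.2 c hc).1, c, hc, fun J => {φ J},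
        fun J _ => Finset.mem_singleton_self _, Finset.biUnion_singleton.symm⟩
  rw [← h2, ← h3]
  exact h1

end Pool.Agent.MP_5baa61_gt.JA
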